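import Pool.Agent.Y330.N.A3

set_option autoImplicit false
set_option linter.unusedSectionVars false

open Filter Topology Set Metric unitInterval

namespace Pool.Agent.N520.P

open Pool.Agent.H789R2.AN Pool.Agent.H789R2.GP Pool.Agent.TH304.K289 Pool.Agent.TH289.L
open Pool.Agent.Y330.G Pool.Agent.Y330.H Pool.Agent.Y330.N

/-- chains with `N` links -/
def Chn {α : Type*} (r : α → α → Prop) (N : ℕ) (x y : α) : Prop :=
  ∃ p : ℕ → α, p 0 = x ∧ p N = y ∧ ∀ i < N, r (p i) (p (i + 1))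

section chains

variable {α β : Type*} {r : α → α → Prop} {r' : β → β → Prop}

theorem Chn.refl (x : α) : Chn r 0 x x := ⟨fun _ => x, rfl, rfl, fun i hi => absurd hi (by omega)⟩

theorem chn_zero {x y : α} : Chn r 0 x y ↔ x = y := by
  constructor
  · rintro ⟨p, h0, h1, -⟩
    rw [← h0, h1]
  · rintro rfl
    exact Chn.refl x

theorem chn_succ {N : ℕ} {x z : α} : Chn r (N + 1) x z ↔ ∃ y, Chn r N x y ∧ r y z := by
  constructor
  · rintro ⟨p, h0, h1, h2⟩
    exact ⟨p N, ⟨p, h0, rfl, fun i hi => h2 i (by omega)⟩, by rw [← h1]; exact h2 N (by omega)⟩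
  · rintro ⟨y, ⟨p, h0, h1, h2⟩, h3⟩
    refine ⟨fun i => if i ≤ N then p i else z, by simpa using h0, by simp, fun i hi => ?_⟩
    by_cases h : i + 1 ≤ N
    · have h' : i ≤ N := by omega
      simp only [h, h', if_true]
      exact h2 i (by omega)
    · have h' : i = N := by omega
      subst h'
      simp only [le_refl, if_true, h, if_false]
      rw [h1]
      exact h3

theorem Chn.snoc {N : ℕ} {x y z : α} (h : Chn r N x y) (h' : r y z) : Chn r (N + 1) x z :=
  chn_succ.2 ⟨y, h, h'⟩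

theorem Chn.single {x y : α} (h : r x y) : Chn r 1 x y := (Chn.refl x).snoc h

theorem Chn.trans {N M : ℕ} {x y z : α} (h : Chn r N x y) (h' : Chn r M y z) :
    Chn r (N + M) x z := by
  induction M generalizing z with
  | zero =>
    rw [chn_zero] at h'
    subst h'
    exact h
  | succ M ih =>
    obtain ⟨w, h1, h2⟩ := chn_succ.1 h'
    exact (ih h1).snoc h2

theorem Chn.map {N : ℕ} {x y : α} (h : Chn r N x y) {φ : α → β}
    (hφ : ∀ x y, r x y → r' (φ x) (φ y)) : Chn r' N (φ x) (φ y) := by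
  obtain ⟨p, h0, h1, h2⟩ := h
  exact ⟨fun i => φ (p i), congrArg φ h0, congrArg φ h1, fun i hi => hφ _ _ (h2 i hi)⟩

theorem Chn.imp {N : ℕ} {x y : α} (h : Chn r N x y) {r₂ : α → α → Prop}
    (hφ : ∀ x y, r x y → r₂ x y) : Chn r₂ N x y := h.map (φ := id) hφ

theorem Chn.flip {N : ℕ} {x y : α} (hs : ∀ x y, r x y → r y x) (h : Chn r N x y) :
    Chn r N y x := by
  induction N generalizing y with
  | zero =>
    rw [chn_zero] at h ⊢
    exact h.symm
  | succ N ih =>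
    obtain ⟨w, h1, h2⟩ := chn_succ.1 h
    have := (Chn.single (hs _ _ h2)).trans (ih h1)
    rwa [Nat.add_comm] at this

theorem Chn.pad {N N' : ℕ} {x y : α} (hr : ∀ x, r x x) (h : Chn r N x y) (hN : N ≤ N') :
    Chn r N' x y := by
  obtain ⟨d, rfl⟩ := Nat.exists_eq_add_of_le hN
  clear hN
  induction d with
  | zero => exact h
  | succ d ih => exact ih.snoc (hr _)

theorem Chn.flat {N m : ℕ} {x y : α} (h : Chn r N x y) {φ : α → β}
    (hφ : ∀ x y, r x y → Chn r' m (φ x) (φ y)) : Chn r' (N * m) (φ x) (φ y) := by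
  induction N generalizing y with
  | zero =>
    rw [chn_zero] at h
    subst h
    rw [Nat.zero_mul]
    exact Chn.refl _
  | succ N ih =>
    obtain ⟨w, h1, h2⟩ := chn_succ.1 h
    rw [Nat.succ_mul]
    exact (ih h1).trans (hφ _ _ h2)

theorem chn_prefix {N : ℕ} {p : ℕ → α} (h : ∀ i < N, r (p i) (p (i + 1))) {i : ℕ} (hi : i ≤ N) :
    Chn r i (p 0) (p i) := ⟨p, rfl, rfl, fun j hj => h j (by omega)⟩

theorem chn_suffix {N : ℕ} {p : ℕ → α} (h : ∀ i < N, r (p i) (p (i + 1))) {i : ℕ} (hi : i ≤ N) :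
    Chn r (N - i) (p i) (p N) :=
  ⟨fun j => p (i + j), rfl, by show p (i + (N - i)) = p N; congr 1; omega,
    fun j hj => h (i + j) (by omega)⟩

end chains

variable {X : Type*} [MetricSpace X] {g : X ≃ₜ X} {c : ℝ}

theorem sr_refl (g : X ≃ₜ X) {ρ : ℝ} (hρ : 0 ≤ ρ) (x : X) : SR g ρ x x := fun k => by
  rw [dist_self]
  exact hρ

theorem Chn.sr_pad {ρ : ℝ} (hρ : 0 ≤ ρ) {N N' : ℕ} {x y : X} (h : Chn (SR g ρ) N x y)
    (hN : N ≤ N') : Chn (SR g ρ) N' x y := h.pad (fun x => sr_refl g hρ x) hN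

theorem Chn.sr_mono {ρ ρ' : ℝ} {N : ℕ} {x y : X} (h : Chn (SR g ρ) N x y) (hρ : ρ ≤ ρ') :
    Chn (SR g ρ') N x y := h.imp fun _ _ h => h.mono hρ

theorem Chn.sr_flip {ρ : ℝ} {N : ℕ} {x y : X} (h : Chn (SR g ρ) N x y) : Chn (SR g ρ) N y x :=
  h.flip fun _ _ h => h.symm'

theorem Chn.sr_iter {ρ : ℝ} {N : ℕ} {x y : X} (h : Chn (SR g ρ) N x y) (m : ℕ) :
    Chn (SR g ρ) N (g^[m] x) (g^[m] y) := h.map fun _ _ h => h.shift m

/-- links of unstable chains in a ladder -/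
def EL (g : X ≃ₜ X) (n : ℕ) (ρ ε κ : ℝ) (N : ℕ) (a b : X) : Prop :=
  SR g.symm ε a b ∧ ∃ o o' : X, dist o o' ≤ κ ∧
    Chn (SR g ρ) N (g.symm^[n] o) (g.symm^[n] a) ∧ Chn (SR g ρ) N (g.symm^[n] o') (g.symm^[n] b)

theorem EL.pad {n : ℕ} {ρ ε κ : ℝ} (hρ : 0 ≤ ρ) {N N' : ℕ} (hN : N ≤ N') {a b : X}
    (h : EL g n ρ ε κ N a b) : EL g n ρ ε κ N' a b := by
  obtain ⟨h1, o, o', h2, h3, h4⟩ := h
  exact ⟨h1, o, o', h2, h3.sr_pad hρ hN, h4.sr_pad hρ hN⟩

theorem EL.of_sr {n : ℕ} {ρ ε κ : ℝ} (hσ : κ ≤ ε) {a b : X} (h : SR g.symm κ a b) :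
    EL g n ρ ε κ 0 a b :=
  ⟨h.mono hσ, a, b, h 0, Chn.refl _, Chn.refl _⟩

/-- the state of a stable chain in a ladder, in the top frame -/
structure St (g : X ≃ₜ X) (c : ℝ) (n : ℕ) (ρ κ : ℝ) (N l : ℕ) (a b : X) (w₀ w : ℕ → X) : Prop where
  h0 : w 0 = a
  h1 : w N = b
  lk₀ : ∀ i < N, SR g κ (g.symm^[n] (w₀ i)) (g.symm^[n] (w₀ (i + 1)))
  lk : ∀ i < N, SR g ρ (g.symm^[n] (w i)) (g.symm^[n] (w (i + 1)))
  vt : ∀ i ≤ N, Chn (SR g.symm c) l (w₀ i) (w i)

variable [CompactSpace X]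

/-- **The ladder.** -/
theorem ladder (hg : LP g c) : ∃ ρ > 0, ∃ ε > 0, ∃ κ > 0, 2 * ρ ≤ c ∧ ε ≤ c ∧ κ ≤ ρ ∧ κ ≤ ε ∧
    ∀ (n Nm Jm : ℕ),
      (∀ a b, Chn (SR g c) Nm (g.symm^[n] a) (g.symm^[n] b) → SR g κ a b) →
      (∀ a b, Chn (SR g.symm c) Jm a b → SR g.symm κ (g.symm^[n] a) (g.symm^[n] b)) →
      ∀ (τ : C(I, SM g)) (N : ℕ),
      (∀ r, Chn (SR g κ) N (g.symm^[n] (τ 0).val) (g.symm^[n] (τ r).val)) →
      ∀ (N' J : ℕ) (y : X), N' + N ≤ Nm → J ≤ Jm → Chn (EL g n ρ ε κ N') J (τ 0).val y →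
      ∃ p, Lft g τ y p ∧ Chn (EL g n ρ ε κ (N' + N)) J (τ 1).val p ∧
        Chn (SR g ρ) N (g.symm^[n] y) (g.symm^[n] p) := by
  have hc := hg.c_pos
  obtain ⟨br, δb, hδb, hbr, hsmall, huniq, hunif⟩ := exists_br hg.symm
  obtain ⟨ηb, hηb, hsm⟩ := hsmall (c / 8) (by positivity)
  set η₀ := min δb ηb with hη₀
  have hη₀0 : 0 < η₀ := lt_min hδb hηb
  have m1 : η₀ ≤ δb := min_le_left _ _
  have m2 : η₀ ≤ ηb := min_le_right _ _
  set ρ := c / 8 with hρ
  have hρ0 : 0 < ρ := by positivity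
  set ε := min (c / 8) (η₀ / 2) with hε
  have hε0 : 0 < ε := by positivity
  have m3 : ε ≤ c / 8 := min_le_left _ _
  have m4 : ε ≤ η₀ / 2 := min_le_right _ _
  obtain ⟨ηε, hηε, hqε⟩ := qs_SR_of_dist hg.symm ε hε0
  obtain ⟨ηρ, hηρ, hqρ⟩ := qs_SR_of_dist hg ρ hρ0
  set κ := min (min (η₀ / 4) (min (ηε / 4) (ηρ / 4))) (min ρ ε) with hσ
  have hσ0 : 0 < κ := by positivity
  have k1 : κ ≤ η₀ / 4 := (min_le_left _ _).trans (min_le_left _ _)
  have k2 : κ ≤ ηε / 4 := (min_le_left _ _).trans ((min_le_right _ _).trans (min_le_left _ _))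
  have k3 : κ ≤ ηρ / 4 := (min_le_left _ _).trans ((min_le_right _ _).trans (min_le_right _ _))
  have k4 : κ ≤ ρ := (min_le_right _ _).trans (min_le_left _ _)
  have k5 : κ ≤ ε := (min_le_right _ _).trans (min_le_right _ _)
  refine ⟨ρ, hρ0, ε, hε0, κ, hσ0, by linarith, by linarith, k4, k5, ?_⟩
  intro n Nm Jm hS hU τ N hτ N' J y hN hJ hy
  obtain ⟨q, hq0, hqJ, hq⟩ := hy
  have hSρ : ∀ a b (m : ℕ), m ≤ Nm → Chn (SR g ρ) m (g.symm^[n] a) (g.symm^[n] b) →
      SR g κ a b := fun a b m hm h =>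
    hS a b ((h.sr_mono (show ρ ≤ c by linarith)).sr_pad hc.le hm)
  -- the induction
  have key : ∀ l ≤ J, ∃ (υ : C(I, SM g)) (Δ : C(I, Pr g.symm)), Over τ Δ ∧
      (∀ r, (υ r).val = (Δ r).y) ∧ (υ 0).val = q l ∧
      (∀ r, ∃ w₀ w : ℕ → X, St g c n ρ κ N l (υ 0).val (υ r).val w₀ w) ∧
      Chn (EL g n ρ ε κ (N' + N)) l (τ 1).val (υ 1).val := by
    intro l
    induction l with
    | zero =>
      intro _
      obtain ⟨Δ, h1, h2⟩ := strip_const' τ
      refine ⟨τ, Δ, h1, fun r => (h2 r).symm, hq0.symm, fun r => ?_, Chn.refl _⟩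
      obtain ⟨p, p0, p1, p2⟩ := hτ r
      have e : ∀ i < N, SR g κ (g.symm^[n] (g^[n] (p i))) (g.symm^[n] (g^[n] (p (i + 1)))) := by
        intro i hi
        rw [iterL, iterL]
        exact p2 i hi
      exact ⟨fun i => g^[n] (p i), fun i => g^[n] (p i), by rw [p0, iterR], by rw [p1, iterR],
        e, fun i hi => (e i hi).mono k4, fun i _ => Chn.refl _⟩
    | succ l ih =>
      intro hl
      obtain ⟨υ, Δ, h1, h2, h3, h4, h5⟩ := ih (by omega)
      have hel := hq l (by omega)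
      rw [← h3] at hel
      obtain ⟨hel1, o, o', hoo, ho, ho'⟩ := hel
      set y' := q (l + 1) with hy'
      -- facts for a chain
      have f1 : ∀ r (w₀ w : ℕ → X), St g c n ρ κ N l (υ 0).val (υ r).val w₀ w → ∀ i ≤ N,
          SR g κ (w 0) (w i) := fun r w₀ w h i hi =>
        hSρ _ _ i (by omega) ((chn_prefix (r := fun a b => SR g ρ (g.symm^[n] a) (g.symm^[n] b))
          h.lk hi).map (φ := g.symm^[n]) (fun _ _ h => h))
      have f2 : ∀ r (w₀ w : ℕ → X), St g c n ρ κ N l (υ 0).val (υ r).val w₀ w → ∀ i ≤ N,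
          dist (w i) y' < η₀ := by
        intro r w₀ w h i hi
        have a1 : dist (w 0) (w i) ≤ κ := f1 r w₀ w h i hi 0
        have a2 : dist (υ 0).val y' ≤ ε := hel1 0
        rw [← h.h0] at a2
        have := dist_triangle_left (w i) y' (w 0)
        linarith
      have f2' : ∀ r, dist (υ r).val y' < δb := by
        intro r
        obtain ⟨w₀, w, hw⟩ := h4 r
        have := f2 r w₀ w hw N le_rfl
        rw [hw.h1] at this
        linarith
      obtain ⟨Γ, g1, g2⟩ := br_strip hg.symm hbr hunif υ y' f2'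
      obtain ⟨Δ', d1, d2⟩ := over_comp h1 h2 (Δ' := Γ) g1
      obtain ⟨υ', hυ'⟩ := side Δ'
      have hυ'' : ∀ r, (υ' r).val = br (υ r).val y' := fun r =>
        (hυ' r).trans ((d2 r).trans (g2 r))
      have e0 : br (υ 0).val y' = y' :=
        (huniq _ _ _ (f2' 0) (hel1.mono (by linarith)) (sr_refl _ (by positivity) _)).symm
      -- the new chains
      have f3 : ∀ r (w₀ w : ℕ → X), St g c n ρ κ N l (υ 0).val (υ r).val w₀ w → ∀ i ≤ N,
          SR g.symm (c / 8) (w i) (br (w i) y') ∧ SR g (c / 8) y' (br (w i) y') :=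
        fun r w₀ w h i hi => hsm _ _ (by linarith [f2 r w₀ w h i hi])
      have f4 : ∀ r (w₀ w : ℕ → X), St g c n ρ κ N l (υ 0).val (υ r).val w₀ w →
          St g c n ρ κ N (l + 1) (υ' 0).val (υ' r).val w₀ (fun i => br (w i) y') := by
        intro r w₀ w h
        have v1 : ∀ i ≤ N, Chn (SR g.symm c) (l + 1) (w₀ i) (br (w i) y') := fun i hi =>
          (h.vt i hi).snoc ((f3 r w₀ w h i hi).1.mono (by linarith))
        have v2 : ∀ i ≤ N, SR g.symm κ (g.symm^[n] (w₀ i)) (g.symm^[n] (br (w i) y')) :=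
          fun i hi => hU _ _ ((v1 i hi).sr_pad hc.le (by omega))
        refine ⟨by rw [hυ'', h.h0], by rw [hυ'', h.h1], h.lk₀, fun i hi => ?_, v1⟩
        refine hqρ _ _ (fun k => ?_) ?_
        · rcases le_total k n with hk | hk
          · rw [fw g hk, fw g hk]
            have a1 := (f3 r w₀ w h i hi.le).1 (n - k)
            have a2 := (f3 r w₀ w h (i + 1) hi).1 (n - k)
            have a3 := h.lk i hi k
            rw [fw g hk, fw g hk] at a3
            have a4 : dist (g.symm^[n - k] (w i)) (g.symm^[n - k] (w (i + 1))) ≤ c / 8 := a3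
            have := dist_triangle (g.symm^[n - k] (br (w i) y')) (g.symm^[n - k] (w i))
              (g.symm^[n - k] (br (w (i + 1)) y'))
            have := dist_triangle (g.symm^[n - k] (w i)) (g.symm^[n - k] (w (i + 1)))
              (g.symm^[n - k] (br (w (i + 1)) y'))
            rw [dist_comm] at a1
            linarith
          · rw [fw' g hk, fw' g hk]
            have a1 := (f3 r w₀ w h i hi.le).2 (k - n)
            have a2 := (f3 r w₀ w h (i + 1) hi).2 (k - n)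
            have := dist_triangle_left (g^[k - n] (br (w i) y'))
              (g^[k - n] (br (w (i + 1)) y')) (g^[k - n] y')
            linarith
        · have a1 := v2 i hi.le 0
          have a2 := v2 (i + 1) hi 0
          have a3 := h.lk₀ i hi 0
          simp only [Function.iterate_zero, id_eq] at a1 a2 a3
          have := dist_triangle (g.symm^[n] (br (w i) y')) (g.symm^[n] (w₀ i))
              (g.symm^[n] (br (w (i + 1)) y'))
          have := dist_triangle (g.symm^[n] (w₀ i)) (g.symm^[n] (w₀ (i + 1)))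
              (g.symm^[n] (br (w (i + 1)) y'))
          rw [dist_comm] at a1
          linarith
      refine ⟨υ', Δ', d1, fun r => hυ' r, by rw [hυ'', e0], fun r => ?_, ?_⟩
      · obtain ⟨w₀, w, hw⟩ := h4 r
        exact ⟨w₀, _, f4 r w₀ w hw⟩
      · refine h5.snoc ?_
        obtain ⟨w₀, w, hw⟩ := h4 1
        have hw' := f4 1 w₀ w hw
        have c1 : Chn (SR g ρ) (N' + N) (g.symm^[n] o) (g.symm^[n] (υ 1).val) := by
          rw [← hw.h1]
          refine ho.trans ?_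
          rw [← hw.h0]
          exact (chn_prefix (r := fun a b => SR g ρ (g.symm^[n] a) (g.symm^[n] b))
            hw.lk le_rfl).map (φ := g.symm^[n]) (fun _ _ h => h)
        have c2 : Chn (SR g ρ) (N' + N) (g.symm^[n] o') (g.symm^[n] (υ' 1).val) := by
          rw [← hw'.h1]
          refine ho'.trans ?_
          have e1 : y' = br (w 0) y' := by rw [hw.h0, e0]
          conv_lhs => rw [e1]
          exact (chn_prefix (r := fun a b => SR g ρ (g.symm^[n] a) (g.symm^[n] b))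
            hw'.lk le_rfl).map (φ := g.symm^[n]) (fun _ _ h => h)
        refine ⟨hqε _ _ ?_ ?_, o, o', hoo, c1, c2⟩
        · have := (f3 1 w₀ w hw N le_rfl).1
          rw [hw.h1, ← hυ''] at this
          exact this.mono (by linarith)
        · have a1 := hSρ _ _ _ hN c1 0
          have a2 := hSρ _ _ _ hN c2 0
          simp only [Function.iterate_zero, id_eq] at a1 a2
          have := dist_triangle (υ 1).val o (υ' 1).val
          have := dist_triangle o o' (υ' 1).val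
          rw [dist_comm] at a1
          linarith
  obtain ⟨υ, Δ, h1, h2, h3, h4, h5⟩ := key J le_rfl
  refine ⟨(υ 1).val, ⟨Δ, h1, by rw [← h2, h3, hqJ], by rw [h2]⟩, h5, ?_⟩
  obtain ⟨w₀, w, hw⟩ := h4 1
  rw [← hw.h1, ← hqJ, ← h3, ← hw.h0]
  exact (chn_prefix (r := fun a b => SR g ρ (g.symm^[n] a) (g.symm^[n] b))
    hw.lk le_rfl).map (φ := g.symm^[n]) (fun _ _ h => h)

end Pool.Agent.N520.P
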