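import Pool.Agent.N520.P.A1

set_option autoImplicit false
set_option linter.unusedSectionVars false

open Filter Topology Set Metric unitInterval

namespace Pool.Agent.N520.P

open Pool.Agent.H789R2.AN Pool.Agent.H789R2.GP Pool.Agent.TH304.K289 Pool.Agent.TH289.L
open Pool.Agent.Y330.G Pool.Agent.Y330.H Pool.Agent.Y330.N

variable {X : Type*} [MetricSpace X] {g : X ≃ₜ X} {c : ℝ}

/-- the growth gap, in the metric form -/
structure GapR (g : X ≃ₜ X) (c κ : ℝ) (K k m N J : ℕ) : Prop where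
  eS : ∀ x y, SR g κ x y → Chn (SR g κ) N (g.symm^[k] x) (g.symm^[k] y)
  eU : ∀ x y, SR g.symm κ x y → Chn (SR g.symm κ) J (g^[m] x) (g^[m] y)
  cS : ∀ x y, Chn (SR g c) (K * N) x y → SR g κ (g^[k + m] x) (g^[k + m] y)
  cU : ∀ x y, Chn (SR g.symm c) (K * J) x y → SR g.symm κ (g.symm^[k + m] x) (g.symm^[k + m] y)

/-- growth gaps at all scales -/
def Gaps (g : X ≃ₜ X) (c : ℝ) : Prop :=
  ∀ κ > 0, κ ≤ c → ∀ b K : ℕ, ∃ k m N J : ℕ, b ≤ k ∧ b ≤ m ∧ GapR g c κ K k m N J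

theorem back_add (g : X ≃ₜ X) (k m : ℕ) (z : X) : g.symm^[k + m] (g^[m] z) = g.symm^[k] z := by
  rw [Function.iterate_add_apply, iterL]

variable [CompactSpace X]

/-- stable paths and unstable pairs have finite size -/
theorem size_of (hg : LP g c) (hG : Gaps g c) {κ : ℝ} (hσ : 0 < κ) (hσc : κ ≤ c)
    (τ : C(I, SM g)) {y : X} (hy : WS g.symm (τ 0).val y) : ∃ N J : ℕ,
      (∀ r, Chn (SR g κ) N (τ 0).val (τ r).val) ∧ Chn (SR g.symm κ) J (τ 0).val y := by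
  obtain ⟨j₁, h1⟩ := path_small hg τ hσ
  obtain ⟨j₂, h2⟩ := exists_lz (g := g) hσ hy
  obtain ⟨k, m, N, J, hk, hm, hgp⟩ := hG κ hσ hσc (j₁ + j₂) 0
  refine ⟨N, J, fun r => ?_, ?_⟩
  · have := hgp.eS _ _ (h1 k (by omega) r)
    rwa [iterL, iterL] at this
  · have h3 : SR g.symm κ (g.symm^[m] (τ 0).val) (g.symm^[m] y) := by
      have := lz_nat.1 (h2.mono (show (j₂ : ℤ) ≤ (m : ℤ) by omega))
      exact this
    have := hgp.eU _ _ h3
    rwa [iterR, iterR] at this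

/-- all points lift along all stable paths -/
theorem lft_all (hg : LP g c) (hG : Gaps g c) (τ : C(I, SM g)) {y : X}
    (hy : WS g.symm (τ 0).val y) : ∃ p, Lft g τ y p := by
  obtain ⟨ρ, hρ, ε, hε, κ, hσ, hρc, hεc, hσρ, hσε, hL⟩ := ladder hg
  have hσc : κ ≤ c := by linarith
  obtain ⟨N₀, J₀, hN₀, hJ₀⟩ := size_of hg hG hσ hσc τ hy
  obtain ⟨k, m, N, J, -, -, hgp⟩ := hG κ hσ hσc 0 (N₀ + J₀)
  have hz : ∀ r, (zpath (m : ℤ) τ r).val = g^[m] (τ r).val := fun r => by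
    rw [zpath_apply, zp_nat]
  obtain ⟨p, hp, -, -⟩ := hL (k + m) ((N₀ + J₀) * N) ((N₀ + J₀) * J)
    (fun a b h => by
      have := hgp.cS _ _ h
      rwa [iterR, iterR] at this)
    hgp.cU (zpath (m : ℤ) τ) (N₀ * N)
    (fun r => by
      rw [hz, hz, back_add, back_add]
      exact (hN₀ r).flat hgp.eS)
    0 (J₀ * J) (g^[m] y) (by rw [Nat.zero_add]; exact Nat.mul_le_mul_right _ (by omega))
    (Nat.mul_le_mul_right _ (by omega))
    (by
      rw [hz]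
      exact (hJ₀.flat hgp.eU).imp fun _ _ h => EL.of_sr hσε h)
  rw [← zp_nat g m y] at hp
  exact ⟨_, hp.unshift m⟩

/-- all unstable paths lift along all stable displacements -/
theorem lf_of_gaps (hg : LP g c) (hX : ULC X) (hG : Gaps g c) : ∀ a s, WS g a s → Lf g a s := by
  intro a s has v hv
  obtain ⟨c₁, hc₁, hs⟩ := exists_sl hg.symm
  obtain ⟨τ, hτ0', hτ1'⟩ := leaf_conn hg hX a s has
  have hτ0 : (τ 0).val = a := congrArg SM.val hτ0'
  have hτ1 : (τ 1).val = s := congrArg SM.val hτ1'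
  obtain ⟨R, hR, hR0, hR1⟩ := rc_of_strips hg.symm hc₁ hs v τ (hv.trans hτ0.symm) (fun t => by
    have hw : WS g.symm (τ 0).val (v t).val := by
      rw [hτ0]
      have := path_ws hg.symm v 0 t
      rwa [hv] at this
    obtain ⟨p, Δ, d1, d2, d3⟩ := lft_all hg hG τ hw
    exact ⟨Δ, d2, d1⟩)
  have hT : Rc g (fun s t => R t s) := hR.tr
  obtain ⟨Γ, g1, g2⟩ := hT.strip 0 1
  refine ⟨(Γ 1).y, Γ, (g2 0).trans ((hR1 1).trans hτ1), rfl, fun t => (g1 t).trans (hR0 t)⟩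

end Pool.Agent.N520.P
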