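import Pool.Agent.N520.P.A2
import Pool.Agent.Y330.J.A6

set_option autoImplicit false
set_option linter.unusedSectionVars false

open Filter Topology Set Metric unitInterval
open scoped Pointwise

namespace Pool.Agent.N520.P

open Pool.Agent.H789R2.AN Pool.Agent.H789R2.GP Pool.Agent.TH304.K289 Pool.Agent.TH289.L
open Pool.Agent.Y330.G Pool.Agent.Y330.H Pool.Agent.Y330.N Pool.Agent.Y330.J

variable {X : Type*} [MetricSpace X] [CompactSpace X] {g : X ≃ₜ X} {c : ℝ}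

/-- data for a generator -/
def GDt (g : X ≃ₜ X) (κ : ℝ) (N J : ℕ) {x : X} (α : Path.Homotopic.Quotient x x) : Prop :=
  ∃ (y : X) (p : Path x y) (q : Path y x), LPath g.symm p ∧ LPath g q ∧
    α = (cl p).trans (cl q) ∧ (∀ s, Chn (SR g κ) N x (q.symm s)) ∧ Chn (SR g.symm κ) J x y

/-- data for a product -/
def NDt (g : X ≃ₜ X) (ρ ε κ : ℝ) (k m N J : ℕ) {x : X} (α : Path.Homotopic.Quotient x x) : Prop :=
  ∃ (y : X) (p : Path x y) (q : Path y x), LPath g.symm p ∧ LPath g q ∧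
    α = (cl p).trans (cl q) ∧ Chn (EL g (k + m) ρ ε κ N) J (g^[m] x) (g^[m] y) ∧
    Chn (SR g ρ) N (g.symm^[k] y) (g.symm^[k] x)

theorem NDt.zero {ρ ε κ : ℝ} (k m : ℕ) (x : X) :
    NDt g ρ ε κ k m 0 0 (Path.Homotopic.Quotient.refl x) := by
  refine ⟨x, Path.refl x, Path.refl x, LPath.refl _ _, LPath.refl _ _, ?_, Chn.refl _,
    Chn.refl _⟩
  show Path.Homotopic.Quotient.refl x = (cl (Path.refl x)).trans (cl (Path.refl x))
  rw [show cl (Path.refl x) = Path.Homotopic.Quotient.refl x from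
    Path.Homotopic.Quotient.mk_refl x, Path.Homotopic.Quotient.refl_trans]

/-- the conclusion of the ladder -/
def Lad (g : X ≃ₜ X) (n Nm Jm : ℕ) (ρ ε κ : ℝ) : Prop :=
  ∀ (τ : C(I, SM g)) (N : ℕ),
    (∀ r, Chn (SR g κ) N (g.symm^[n] (τ 0).val) (g.symm^[n] (τ r).val)) →
    ∀ (N' J : ℕ) (y : X), N' + N ≤ Nm → J ≤ Jm → Chn (EL g n ρ ε κ N') J (τ 0).val y →
    ∃ p, Lft g τ y p ∧ Chn (EL g n ρ ε κ (N' + N)) J (τ 1).val p ∧
      Chn (SR g ρ) N (g.symm^[n] y) (g.symm^[n] p)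

/-- one more generator -/
theorem NDt.step (hg : LP g c) (hex : Ex g) {ρ ε κ : ℝ} (hρ : 0 ≤ ρ) (hσε : κ ≤ ε)
    {k m K N J : ℕ} (hgp : GapR g c κ K k m N J) (hL : Lad g (k + m) (K * N) (K * J) ρ ε κ)
    {N₁ J₁ N₂ J₂ : ℕ} (hN : N₂ + N₁ * N ≤ K * N) (hJ : J₂ ≤ K * J) {x : X}
    {α β : Path.Homotopic.Quotient x x} (hα : GDt g κ N₁ J₁ α) (hβ : NDt g ρ ε κ k m N₂ J₂ β) :
    NDt g ρ ε κ k m (N₂ + N₁ * N) (J₁ * J + J₂) (α.trans β) := by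
  obtain ⟨y₁, p₁, q₁, hp₁, hq₁, rfl, hs₁, hu₁⟩ := hα
  obtain ⟨y₂, p₂, q₂, hp₂, hq₂, rfl, hu₂, hs₂⟩ := hβ
  obtain ⟨R, hR, hR0, hR1⟩ := hex x y₁ y₂ q₁.symm p₂ hq₁.symm hp₂
  obtain ⟨r, hr, hr'⟩ := Rc.right (y := R 1 1) hR (x := y₁) (by rw [hR0]; simp) rfl
  obtain ⟨t, ht, ht'⟩ := Rc.top (y := R 1 1) hR (x := y₂) (by rw [hR1]; simp) rfl
  have hsw := swap_cl hR.cont (α := q₁.symm) (β := r) (β' := p₂) (α' := t) hR0
    (fun t => (hr' t).symm) hR1 (fun s => (ht' s).symm)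
  rw [Path.symm_symm] at hsw
  obtain ⟨τ, hτ⟩ := hq₁.symm.sm
  have hz : ∀ r, (zpath (m : ℤ) τ r).val = g^[m] (q₁.symm r) := fun r => by
    rw [zpath_apply, zp_nat, hτ]
  have e0 : q₁.symm 0 = x := q₁.symm.source
  have e1 : q₁.symm 1 = y₁ := q₁.symm.target
  obtain ⟨p, hp, hE, hS⟩ := hL (zpath (m : ℤ) τ) (N₁ * N)
    (fun r => by
      rw [hz, hz, back_add, back_add, e0]
      exact (hs₁ r).flat hgp.eS)
    N₂ J₂ (g^[m] y₂) hN hJ (by rw [hz, e0]; exact hu₂)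
  have hlft : Lft g τ y₂ (R 1 1) := by
    obtain ⟨Δ, d1, d2⟩ := hR.tr.strip 0 1
    exact ⟨Δ, fun r => by rw [d1, hR0, hτ], by rw [d2, hR1, p₂.target], d2 1⟩
  have hpR : p = g^[m] (R 1 1) := by
    have h1 := hlft.shift (m : ℤ)
    rw [zp_nat, zp_nat] at h1
    exact hp.unique hg h1
  rw [hpR, back_add, back_add] at hS
  rw [hpR, hz, e1] at hE
  refine ⟨R 1 1, p₁.trans r, t.symm.trans q₂, hp₁.trans hr, ht.symm.trans hq₂, ?_, ?_, ?_⟩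
  · rw [cl_trans, cl_trans, Path.Homotopic.Quotient.trans_assoc,
      Path.Homotopic.Quotient.trans_assoc, ← Path.Homotopic.Quotient.trans_assoc (cl q₁), hsw,
      Path.Homotopic.Quotient.trans_assoc]
  · refine Chn.trans ?_ hE
    exact (hu₁.flat hgp.eU).imp fun _ _ h => (EL.of_sr hσε h).pad hρ (Nat.zero_le _)
  · rw [Nat.add_comm]
    exact hS.sr_flip.trans hs₂

/-- the products -/
theorem ndt_pow (hg : LP g c) (hex : Ex g) {ρ ε κ : ℝ} (hρ : 0 ≤ ρ) (hσε : κ ≤ ε)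
    {k m K N J : ℕ} (hgp : GapR g c κ K k m N J) (hL : Lad g (k + m) (K * N) (K * J) ρ ε κ)
    {N₁ J₁ L : ℕ} (hK : L * (N₁ + J₁) ≤ K) {x : X}
    {S : Set (FundamentalGroup X x)} (hS : ∀ α ∈ S, GDt g κ N₁ J₁ (x := x) α) :
    ∀ n ≤ L, ∀ α ∈ S ^ n, NDt g ρ ε κ k m (n * (N₁ * N)) (n * (J₁ * J)) (x := x) α := by
  intro n
  induction n with
  | zero =>
    intro _ α hα
    rw [pow_zero, Set.mem_one] at hα
    rw [hα, FundamentalGroup.one_def, Nat.zero_mul, Nat.zero_mul]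
    exact NDt.zero k m x
  | succ n ih =>
    intro hn α hα
    rw [pow_succ] at hα
    obtain ⟨β, hβ, γ, hγ, rfl⟩ := Set.mem_mul.1 hα
    rw [FundamentalGroup.mul_def]
    have h1 : (n + 1) * (N₁ * N) ≤ K * N := by
      have h2 : (n + 1) * N₁ ≤ K := le_trans (Nat.mul_le_mul hn (Nat.le_add_right N₁ J₁)) hK
      rw [← Nat.mul_assoc]
      exact Nat.mul_le_mul_right _ h2
    have h3 : n * (J₁ * J) ≤ K * J := by
      have h2 : n * J₁ ≤ K :=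
        le_trans (Nat.mul_le_mul (by omega : n ≤ L) (Nat.le_add_left J₁ N₁)) hK
      rw [← Nat.mul_assoc]
      exact Nat.mul_le_mul_right _ h2
    have := NDt.step hg hex hρ hσε hgp hL (by rw [← Nat.succ_mul]; exact h1) h3 (hS γ hγ)
      (ih (by omega) β hβ)
    rwa [← Nat.succ_mul, Nat.add_comm (J₁ * J), ← Nat.succ_mul] at this

/-- logarithmic growth gaps -/
def LogGaps (g : X ≃ₜ X) (c : ℝ) : Prop :=
  ∀ κ > 0, κ ≤ c → ∀ b : ℕ, ∃ A : ℕ, ∀ K : ℕ, ∃ k m N J : ℕ, b ≤ k ∧ b ≤ m ∧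
    k + m ≤ A * (Nat.log 2 (K + 1) + 1) ∧ GapR g c κ K k m N J

theorem LogGaps.gaps (h : LogGaps g c) : Gaps g c := by
  intro κ hσ hσc b K
  obtain ⟨A, hA⟩ := h κ hσ hσc b
  obtain ⟨k, m, N, J, h1, h2, -, h3⟩ := hA K
  exact ⟨k, m, N, J, h1, h2, h3⟩

theorem GDt.exists (hg : LP g c) (hX : ULC X) (hex : Ex g) (hG : Gaps g c) {κ : ℝ} (hσ : 0 < κ)
    (hσc : κ ≤ c) {x : X} (α : Path.Homotopic.Quotient x x) :
    ∃ N₀ : ℕ, ∀ N ≥ N₀, ∀ J ≥ N₀, GDt g κ N J α := by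
  obtain ⟨p₀, rfl⟩ := Path.Homotopic.Quotient.mk_surjective α
  obtain ⟨y, p, q, hp, hq, he⟩ := nf_all hg hX hex p₀
  obtain ⟨τ, hτ⟩ := hq.symm.sm
  have e0 : (τ 0).val = x := by rw [hτ]; exact q.symm.source
  have hw : WS g.symm (τ 0).val y := by
    rw [e0]
    have := Con.toWS hp 1
    rwa [p.target] at this
  obtain ⟨N, J, h1, h2⟩ := size_of hg hG hσ hσc τ hw
  rw [e0] at h1 h2
  refine ⟨N + J, fun N' hN' J' hJ' => ⟨y, p, q, hp, hq, he, fun s => ?_, ?_⟩⟩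
  · have := h1 s
    rw [hτ] at this
    exact this.sr_pad hσ.le (by omega)
  · exact h2.sr_pad hσ.le (by omega)

theorem GDt.finite (hg : LP g c) (hX : ULC X) (hex : Ex g) (hG : Gaps g c) {κ : ℝ} (hσ : 0 < κ)
    (hσc : κ ≤ c) {x : X} {S : Set (FundamentalGroup X x)} (hS : S.Finite) :
    ∃ N : ℕ, ∀ α ∈ S, GDt g κ N N (x := x) α := by
  choose N hN using fun α : FundamentalGroup X x =>
    GDt.exists (c := c) hg hX hex hG hσ hσc (x := x) α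
  obtain ⟨m, hm⟩ := (hS.image N).bddAbove
  refine ⟨m, fun α hα => hN α m ?_ m ?_⟩ <;> exact hm (mem_image_of_mem _ hα)

end Pool.Agent.N520.P
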