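import Pool.Agent.N520.P.A3

set_option autoImplicit false
set_option linter.unusedSectionVars false

open Filter Topology Set Metric unitInterval
open scoped Pointwise

namespace Pool.Agent.N520.P

open Pool.Agent.H789R2.AN Pool.Agent.H789R2.GP Pool.Agent.TH304.K289 Pool.Agent.TH289.L
open Pool.Agent.Y330.G Pool.Agent.Y330.H Pool.Agent.Y330.N Pool.Agent.Y330.J

variable {X : Type*} [MetricSpace X] [CompactSpace X] {g : X ≃ₜ X} {c : ℝ}

/-- polynomial growth from logarithmic growth gaps -/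
theorem pg_of_gaps (hg : LP g c) (hX : ULC X) (hex : Ex g) (hG : LogGaps g c) :
    ∃ d : ℕ, ∀ (x : X) (S : Set (FundamentalGroup X x)), S.Finite →
      ∃ C : ℕ, ∀ n : ℕ, (S ^ n).ncard ≤ C * (n + 1) ^ d := by
  classical
  have hc := hg.c_pos
  obtain ⟨ρ, hρ, ε, hε, κ, hσ, hρc, hεc, hσρ, hσε, hL⟩ := ladder hg
  have hσc : κ ≤ c := by linarith
  obtain ⟨A, hA⟩ := hG κ hσ hσc 0
  obtain ⟨Q, col, hcol⟩ := exists_col X hc
  refine ⟨Q * A, fun x S hS => ?_⟩
  obtain ⟨N₀, hN₀⟩ := GDt.finite hg hX hex hG.gaps hσ hσc hS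
  refine ⟨2 ^ (Q * (A + 1)) * (2 * N₀ + 1) ^ (Q * A), fun n => ?_⟩
  obtain ⟨k, m, N, J, -, -, hkm, hgp⟩ := hA (n * (N₀ + N₀))
  set K := n * (N₀ + N₀) with hK
  have hnd := ndt_pow hg hex hρ.le hσε hgp
    (hL (k + m) (K * N) (K * J) (fun a b h => by
      have := hgp.cS _ _ h
      rwa [iterR, iterR] at this) hgp.cU) (L := n) (le_refl K) hN₀ n le_rfl
  have hne : Nonempty X := ⟨x⟩
  have hnd' : ∀ α ∈ S ^ n, ∃ y : X, ∃ (p : Path x y) (r : Path y x), LPath g.symm p ∧
      LPath g r ∧ α = (cl p).trans (cl r) ∧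
      Chn (EL g (k + m) ρ ε κ (n * (N₀ * N))) (n * (N₀ * J)) (g^[m] x) (g^[m] y) ∧
      Chn (SR g ρ) (n * (N₀ * N)) (g.symm^[k] y) (g.symm^[k] x) := hnd
  choose! y hy using hnd'
  have hU : ∀ α ∈ S ^ n, SR g.symm κ (g.symm^[k] x) (g.symm^[k] (y α)) := by
    intro α hα
    obtain ⟨p, r, -, -, -, h1, -⟩ := hy α hα
    have h2 : Chn (SR g.symm c) (n * (N₀ * J)) (g^[m] x) (g^[m] (y α)) :=
      h1.imp fun _ _ h => h.1.mono hεc
    have h3 := hgp.cU _ _ (h2.sr_pad hc.le (N' := K * J) (by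
      rw [← Nat.mul_assoc]
      exact Nat.mul_le_mul_right _ (Nat.mul_le_mul_left _ (by omega))))
    rwa [back_add, back_add] at h3
  have hV : ∀ α ∈ S ^ n, SR g κ (g^[m] (y α)) (g^[m] x) := by
    intro α hα
    obtain ⟨p, r, -, -, -, -, h1⟩ := hy α hα
    have h3 := hgp.cS _ _ (((h1.sr_mono (show ρ ≤ c by linarith))).sr_pad hc.le (N' := K * N) (by
      rw [← Nat.mul_assoc]
      exact Nat.mul_le_mul_right _ (Nat.mul_le_mul_left _ (by omega))))
    rwa [Nat.add_comm k m, Function.iterate_add_apply, Function.iterate_add_apply, iterR,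
      iterR] at h3
  have hinj : Set.InjOn (fun α => fun i : Fin (k + m + 1) =>
      col (g^[(i : ℕ)] (g.symm^[k] (y α)))) (S ^ n) := by
    intro α hα β hβ hab
    have h1 : y α = y β := col_eq hg hcol (i := k) (j := m)
      (fun i hi => by
        have e : ∀ z, g.symm^[i] z = g.symm^[i - k] (g.symm^[k] z) := fun z => by
          rw [← Function.iterate_add_apply, Nat.sub_add_cancel hi]
        rw [e, e]
        have a1 := hU α hα (i - k)
        have a2 := hU β hβ (i - k)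
        have := dist_triangle_left (g.symm^[i - k] (g.symm^[k] (y α)))
          (g.symm^[i - k] (g.symm^[k] (y β))) (g.symm^[i - k] (g.symm^[k] x))
        linarith)
      (fun i hi => by
        have e : ∀ z, g^[i] z = g^[i - m] (g^[m] z) := fun z => by
          rw [← Function.iterate_add_apply, Nat.sub_add_cancel hi]
        rw [e, e]
        have a1 := hV α hα (i - m)
        have a2 := hV β hβ (i - m)
        have := dist_triangle_right (g^[i - m] (g^[m] (y α)))
          (g^[i - m] (g^[m] (y β))) (g^[i - m] (g^[m] x))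
        linarith)
      (fun i hi => congrFun hab ⟨i, by omega⟩)
    obtain ⟨p, r, p1, r1, e1, -, -⟩ := hy α hα
    obtain ⟨p', r', p2, r2, e2, -, -⟩ := hy β hβ
    rw [e1, e2]
    clear e1 e2 hab hα hβ
    generalize y β = yb at *
    subst h1
    rw [cl_eq (hom_unique hX p1 p2), cl_eq (hom_unique hX r1 r2)]
  have hcard : (S ^ n).ncard ≤ (Q + 1) ^ (k + m + 1) := by
    have h1 := Set.ncard_le_ncard_of_injOn _
      (t := (Set.univ : Set (Fin (k + m + 1) → Fin (Q + 1)))) (fun α _ => mem_univ _) hinj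
    rwa [Set.ncard_univ, Nat.card_eq_fintype_card, Fintype.card_fun, Fintype.card_fin,
      Fintype.card_fin] at h1
  refine hcard.trans ?_
  have hQ2 : (Q + 1) ^ (k + m + 1) ≤ (2 ^ Q) ^ (k + m + 1) :=
    Nat.pow_le_pow_left Nat.lt_two_pow_self _
  refine hQ2.trans ?_
  set ℓ := Nat.log 2 (K + 1) with hℓ
  have h1 : 2 ^ ℓ ≤ K + 1 := Nat.pow_log_le_self 2 (by omega)
  have h2 : K + 1 ≤ (2 * N₀ + 1) * (n + 1) := by
    rw [hK]
    nlinarith [Nat.zero_le (n * N₀), Nat.zero_le n, Nat.zero_le N₀]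
  calc (2 ^ Q) ^ (k + m + 1) ≤ (2 ^ Q) ^ (A * (ℓ + 1) + 1) :=
        Nat.pow_le_pow_right (by positivity) (by omega)
    _ = 2 ^ (Q * (A + 1)) * (2 ^ ℓ) ^ (Q * A) := by
        rw [← pow_mul, ← pow_mul, ← pow_add]
        congr 1
        ring
    _ ≤ 2 ^ (Q * (A + 1)) * ((2 * N₀ + 1) * (n + 1)) ^ (Q * A) :=
        Nat.mul_le_mul_left _ (Nat.pow_le_pow_left (h1.trans h2) _)
    _ = _ := by rw [mul_pow]; ring

end Pool.Agent.N520.P
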