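import Pool.Agent.N520.P.A2
import Pool.Agent.Y330.J.A3

set_option autoImplicit false
set_option linter.unusedSectionVars false

open Filter Topology Set Metric unitInterval

namespace Pool.Agent.N520.P

open Pool.Agent.H789R2.AN Pool.Agent.H789R2.GP Pool.Agent.TH304.K289 Pool.Agent.TH289.L
open Pool.Agent.Y330.G Pool.Agent.Y330.H Pool.Agent.Y330.N

section chains

variable {α β : Type*} {r : α → α → Prop} {r' : β → β → Prop}

theorem chn_split {N M : ℕ} {x z : α} (h : Chn r (N + M) x z) :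
    ∃ y, Chn r N x y ∧ Chn r M y z := by
  obtain ⟨p, h0, h1, h2⟩ := h
  refine ⟨p N, ⟨p, h0, rfl, fun i hi => h2 i (by omega)⟩, fun i => p (N + i), rfl, h1,
    fun i hi => h2 (N + i) (by omega)⟩

/-- grouping the links of a chain -/
theorem Chn.group {M N : ℕ} {x y : α} (h : Chn r (M * N) x y) {φ : α → β}
    (hφ : ∀ x y, Chn r N x y → r' (φ x) (φ y)) : Chn r' M (φ x) (φ y) := by
  induction M generalizing y with
  | zero =>
    rw [Nat.zero_mul, chn_zero] at h
    subst h
    exact Chn.refl _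
  | succ M ih =>
    rw [Nat.succ_mul] at h
    obtain ⟨w, h1, h2⟩ := chn_split h
    exact (ih h1).snoc (hφ _ _ h2)

/-- chains along a coloured path -/
theorem chn_col {Y Z : Type*} [DecidableEq Y] (u : I → Z) {R : Z → Z → Prop} (hr : ∀ x, R x x)
    (κ : I → Y) (hcol : ∀ s s', κ s = κ s' → R (u s) (u s'))
    (hcont : ∀ s₀ : I, ∀ᶠ s in 𝓝 s₀, R (u s₀) (u s) ∧ R (u s) (u s₀)) :
    ∀ (n : ℕ) (F : Finset Y), F.card = n → ∀ a : I, (∀ s, a ≤ s → κ s ∈ F) →
      Chn R (3 * n) (u a) (u 1) := by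
  intro n
  induction n with
  | zero =>
    intro F hF a ha
    have := ha a le_rfl
    rw [Finset.card_eq_zero.1 hF] at this
    exact absurd this (Finset.notMem_empty _)
  | succ n ih =>
    intro F hF a ha
    set S : Set ℝ := {x | ∃ s : I, (s : ℝ) = x ∧ a ≤ s ∧ κ s = κ a} with hS
    have hSn : S.Nonempty := ⟨a, a, rfl, le_rfl, rfl⟩
    have hSb : BddAbove S := ⟨1, by rintro x ⟨s, rfl, -, -⟩; exact s.2.2⟩
    set b := sSup S with hb
    have hab : (a : ℝ) ≤ b := le_csSup hSb ⟨a, rfl, le_rfl, rfl⟩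
    have hb1 : b ≤ 1 := csSup_le hSn (by rintro x ⟨s, rfl, -, -⟩; exact s.2.2)
    have hb0 : 0 ≤ b := a.2.1.trans hab
    obtain ⟨δ, hδ, hball⟩ := Metric.eventually_nhds_iff.1 (hcont ⟨b, hb0, hb1⟩)
    obtain ⟨x, ⟨s, rfl, has, hκ⟩, hs⟩ := exists_lt_of_lt_csSup hSn (show b - δ < sSup S by linarith)
    have hsb : (s : ℝ) ≤ b := le_csSup hSb ⟨s, rfl, has, hκ⟩
    have k1 := hball (y := s) (by
      rw [Subtype.dist_eq, Real.dist_eq, abs_lt]
      constructor
      · show -δ < (s : ℝ) - b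
        linarith
      · show (s : ℝ) - b < δ
        linarith)
    have k2 : Chn R 2 (u a) (u ⟨b, hb0, hb1⟩) := (Chn.single (hcol _ _ hκ.symm)).snoc k1.2
    rcases eq_or_lt_of_le hb1 with hb' | hb'
    · have e1 : (⟨b, hb0, hb1⟩ : I) = 1 := Subtype.ext hb'
      rw [e1] at k2
      exact k2.pad hr (by omega)
    · set s₁ : I := ⟨min 1 (b + δ / 2), le_min zero_le_one (by linarith), min_le_left _ _⟩ with hs₁
      have hs₁b : b < (s₁ : ℝ) := by
        show b < min 1 (b + δ / 2)
        exact lt_min hb' (by linarith)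
      have k3 := hball (y := s₁) (by
        rw [Subtype.dist_eq, Real.dist_eq, abs_lt]
        constructor
        · show -δ < min 1 (b + δ / 2) - b
          linarith
        · show min 1 (b + δ / 2) - b < δ
          have := min_le_right 1 (b + δ / 2)
          linarith)
      have k5 := ih (F.erase (κ a)) (by
        rw [Finset.card_erase_of_mem (ha a le_rfl), hF, Nat.add_sub_cancel]) s₁ (fun s' hs' => by
          refine Finset.mem_erase.2 ⟨fun hc => ?_, ha s' ?_⟩
          · have : (s' : ℝ) ≤ b := le_csSup hSb ⟨s', rfl, ?_, hc⟩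
            · have h7 : (s₁ : ℝ) ≤ s' := hs'
              linarith
            · have h7 : (s₁ : ℝ) ≤ s' := hs'
              show (a : ℝ) ≤ s'
              linarith
          · have h7 : (s₁ : ℝ) ≤ s' := hs'
            show (a : ℝ) ≤ s'
            linarith)
      have := (k2.snoc k3.1).trans k5
      rwa [show 2 + 1 + 3 * n = 3 * (n + 1) by ring] at this

end chains

variable {X : Type*} [MetricSpace X] {g : X ≃ₜ X} {c : ℝ}

/-- contraction of chains -/
theorem chn_contr (hg : LP g c) {κ : ℝ} {N n : ℕ} (h : N * (c * (1 / 2) ^ n) ≤ κ) {x y : X}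
    (hxy : Chn (SR g c) N x y) : SR g κ (g^[n] x) (g^[n] y) := by
  have hc := hg.c_pos
  have key : ∀ M (z : X), Chn (SR g c) M x z → ∀ k, dist (g^[k + n] x) (g^[k + n] z) ≤
      M * (c * (1 / 2) ^ n) := by
    intro M
    induction M with
    | zero =>
      intro z hz k
      rw [chn_zero] at hz
      subst hz
      simp
    | succ M ih =>
      intro z hz k
      obtain ⟨w, h1, h2⟩ := chn_succ.1 hz
      have a1 := ih w h1 k
      have a2 := (hg.cS _ _ h2 (k + n)).trans (pw_anti hc (Nat.le_add_left n k))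
      have := dist_triangle (g^[k + n] x) (g^[k + n] w) (g^[k + n] z)
      push_cast
      linarith
  intro k
  rw [← Function.iterate_add_apply, ← Function.iterate_add_apply]
  exact (key N y hxy k).trans h

variable [CompactSpace X]

/-- one step expands the stable leaves by a bounded factor -/
theorem exp_one (hg : LP g c) (hX : ULC X) : ∃ c' > 0, c' ≤ c ∧ ∀ κ > 0, ∃ B : ℕ, ∀ x y,
    SR g c' x y → Chn (SR g κ) B (g.symm x) (g.symm y) := by
  classical
  have hc := hg.c_pos
  have hcm : ∀ x, g.symm (g x) = g (g.symm x) := fun x => by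
    rw [g.symm_apply_apply, g.apply_symm_apply]
  obtain ⟨ε₁, hε₁, h1⟩ := uc_map_iter (g := g) (φ := g.symm) hcm 1 (c / 2) (by positivity)
  obtain ⟨η, hη, hpath⟩ := leaf_path hg hX ε₁ hε₁
  refine ⟨min η c, by positivity, min_le_right _ _, fun κ hσ => ?_⟩
  obtain ⟨η₁, hη₁, hq⟩ := qs_SR_of_dist hg κ hσ
  obtain ⟨Q, col, hcol⟩ := Y330.J.exists_col X (half_pos hη₁)
  refine ⟨3 * (Q + 1), fun x y hxy => ?_⟩
  obtain ⟨υ, u0, u1, u2⟩ := hpath ⟨x⟩ ⟨y⟩ ((SM.dist_le _ _ hη.le).2 (hxy.mono (min_le_left _ _)))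
  have e1 : ∀ t, SR g (c / 2) (g.symm x) (g.symm (υ t).val) := fun t =>
    h1 _ _ ((SM.dist_le _ _ hε₁.le).1 (u2 t))
  have e2 : ∀ t t', SR g c (g.symm (υ t).val) (g.symm (υ t').val) := fun t t' =>
    (sr_tr (e1 t).symm' (e1 t')).mono (by linarith)
  have hcont : Continuous fun t : I => g.symm (υ t).val :=
    g.symm.continuous.comp (SM.val_continuous.comp υ.continuous)
  have key := chn_col (Y := Fin (Q + 1)) (fun t : I => g.symm (υ t).val) (R := SR g κ)
    (fun x => sr_refl g hσ.le x) (fun t => col (g.symm (υ t).val))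
    (fun s s' h => hq _ _ (e2 s s') (lt_of_le_of_lt (hcol _ _ h) (by linarith)))
    (fun s₀ => by
      filter_upwards [(Metric.continuous_iff'.1 hcont) s₀ η₁ hη₁] with s hs
      exact ⟨hq _ _ (e2 _ _) (by rwa [dist_comm]), hq _ _ (e2 _ _) hs⟩)
    (Q + 1) Finset.univ (by rw [Finset.card_univ, Fintype.card_fin]) 0
    (fun s _ => Finset.mem_univ _)
  rw [u0, u1] at key
  exact key

/-- exponential bound for the expansion of the stable leaves -/
theorem exp_all (hg : LP g c) (hX : ULC X) : ∃ c' > 0, c' ≤ c ∧ ∀ κ > 0, ∃ B : ℕ, ∀ n x y,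
    SR g c' x y → Chn (SR g κ) (B ^ (n + 1)) (g.symm^[n + 1] x) (g.symm^[n + 1] y) := by
  obtain ⟨c', hc', hcc, h⟩ := exp_one hg hX
  refine ⟨c', hc', hcc, fun κ hσ => ?_⟩
  obtain ⟨B, hB⟩ := h (min κ c') (lt_min hσ hc')
  have key : ∀ n x y, SR g c' x y →
      Chn (SR g (min κ c')) (B ^ (n + 1)) (g.symm^[n + 1] x) (g.symm^[n + 1] y) := by
    intro n
    induction n with
    | zero =>
      intro x y hxy
      rw [pow_one]
      exact hB _ _ hxy
    | succ n ih =>
      intro x y hxy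
      rw [Function.iterate_succ_apply' g.symm (n + 1) x,
        Function.iterate_succ_apply' g.symm (n + 1) y, pow_succ]
      exact (ih x y hxy).flat fun a b hab => hB a b (hab.mono (min_le_right _ _))
  exact ⟨B, fun n x y hxy => (key n x y hxy).sr_mono (min_le_left _ _)⟩

end Pool.Agent.N520.P
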