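import Mathlib

set_option autoImplicit false

open Filter Topology Set

namespace Pool.Agent.N520.P

variable {M : Type*} [TopologicalSpace M]

/-- `x` and `y` are linked: `fᵏ x` and `fᵏ y` are `𝒰`-close for all `k ≥ 0`.  (For an Anosov
diffeomorphism and a small neighbourhood `𝒰` of the diagonal this says that `x` and `y` lie in the
same local stable leaf.  The links of `f.symm` are the local unstable leaves.) -/
def Link (f : M ≃ₜ M) (𝒰 : Set (M × M)) (x y : M) : Prop :=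
  ∀ k : ℕ, (f^[k] x, f^[k] y) ∈ 𝒰 ∧ (f^[k] y, f^[k] x) ∈ 𝒰

/-- The discrete distance of `x` and `y` in their stable leaf is at most `N`: there is a chain of
`N` links from `x` to `y`. -/
def LeafDistLE (f : M ≃ₜ M) (𝒰 : Set (M × M)) (N : ℕ) (x y : M) : Prop :=
  ∃ p : ℕ → M, p 0 = x ∧ p N = y ∧ ∀ i < N, Link f 𝒰 (p i) (p (i + 1))

/-- `f⁻ⁿ` expands the distance in the stable leaves at most `N` times: linked points are mapped to
points at distance `≤ N` in their stable leaf. -/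
def ExpandsLE (f : M ≃ₜ M) (𝒰 : Set (M × M)) (n N : ℕ) : Prop :=
  ∀ x y, Link f 𝒰 x y → LeafDistLE f 𝒰 N (f.symm^[n] x) (f.symm^[n] y)

/-- `f⁻ⁿ` expands the distance in the stable leaves at least `N` times: if `f⁻ⁿ x` and `f⁻ⁿ y` are
at distance `≤ N` in their stable leaf, then `x` and `y` are linked. -/
def ExpandsGE (f : M ≃ₜ M) (𝒰 : Set (M × M)) (n N : ℕ) : Prop :=
  ∀ x y, LeafDistLE f 𝒰 N (f.symm^[n] x) (f.symm^[n] y) → Link f 𝒰 x y

/-- The growth gap: for every `b` and `K` there are times `k, m ≥ b` such that the stable leaves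
are expanded by `f⁻ᵏ` at most `N` times and by `f^-(k + m - b)` at least `K N` times, and the unstable
leaves are expanded by `fᵐ` at most `J` times and by `f^(k + m - b)` at least `K J` times. -/
def GrowthGap (f : M ≃ₜ M) (𝒰 : Set (M × M)) : Prop :=
  ∀ b K : ℕ, ∃ k m N J : ℕ, b ≤ k ∧ b ≤ m ∧ ExpandsLE f 𝒰 k N ∧ ExpandsLE f.symm 𝒰 m J ∧
    ExpandsGE f 𝒰 (k + m - b) (K * N) ∧ ExpandsGE f.symm 𝒰 (k + m - b) (K * J)

/-- The growth gap with times of the order of `log K`. -/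
def LogGrowthGap (f : M ≃ₜ M) (𝒰 : Set (M × M)) : Prop :=
  ∀ b : ℕ, ∃ A : ℕ, ∀ K : ℕ, ∃ k m N J : ℕ, k + m ≤ A * (Nat.log 2 (K + 1) + 1) ∧
    b ≤ k ∧ b ≤ m ∧ ExpandsLE f 𝒰 k N ∧ ExpandsLE f.symm 𝒰 m J ∧
    ExpandsGE f 𝒰 (k + m - b) (K * N) ∧ ExpandsGE f.symm 𝒰 (k + m - b) (K * J)

/-- Uniform growth of the stable leaves: the largest and the smallest expansion of the distance in
the stable leaves by `f⁻ⁿ` agree up to the factor `C Lⁿ`: `f⁻ⁿ` expands this distance at least `N`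
times and at most `C Lⁿ N` times, for all `n` and some `N = N(n)`. -/
def UniformGrowth (f : M ≃ₜ M) (𝒰 : Set (M × M)) (L : ℝ) : Prop :=
  ∃ C : ℝ, ∀ n : ℕ, ∃ N : ℕ, ExpandsGE f 𝒰 n N ∧
    ∀ N' : ℕ, C * L ^ n * N ≤ N' → ExpandsLE f 𝒰 n N'

/-- The preimages of the local stable leaves are coarsely round, up to the factor `C Lⁿ`: if `x`, `y`
are linked and `x`, `z` are not, then the distance of `f⁻ⁿ x`, `f⁻ⁿ y` in the stable leaf is at most
`C Lⁿ` times that of `f⁻ⁿ x`, `f⁻ⁿ z`.  This is a condition at each centre `x` separately. -/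
def RoundLeaves (f : M ≃ₜ M) (𝒰 : Set (M × M)) (L : ℝ) : Prop :=
  ∃ C : ℝ, ∀ (n N N' : ℕ) (x y z : M), Link f 𝒰 x y → ¬ Link f 𝒰 x z →
    LeafDistLE f 𝒰 N (f.symm^[n] x) (f.symm^[n] z) → C * L ^ n * N ≤ N' →
    LeafDistLE f 𝒰 N' (f.symm^[n] x) (f.symm^[n] y)

/-- Pinched growth of the leaves: up to a constant factor `f⁻ⁿ` expands the distance in the stable
leaves at least `a₁ⁿ` and at most `a₂ⁿ` times, `fⁿ` expands the distance in the unstable leaves at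
least `b₁ⁿ` and at most `b₂ⁿ` times, and `log a₁ / log a₂ + log b₁ / log b₂ > 1`. -/
def PinchedGrowth (f : M ≃ₜ M) (𝒰 : Set (M × M)) : Prop :=
  ∃ C a₁ a₂ b₁ b₂ : ℝ, 1 < a₁ ∧ a₁ ≤ a₂ ∧ 1 < b₁ ∧ b₁ ≤ b₂ ∧
    1 < Real.log a₁ / Real.log a₂ + Real.log b₁ / Real.log b₂ ∧
    (∀ n N : ℕ, C * a₂ ^ n ≤ N → ExpandsLE f 𝒰 n N) ∧
    (∀ n N : ℕ, C * N ≤ a₁ ^ n → ExpandsGE f 𝒰 n N) ∧
    (∀ n N : ℕ, C * b₂ ^ n ≤ N → ExpandsLE f.symm 𝒰 n N) ∧
    ∀ n N : ℕ, C * N ≤ b₁ ^ n → ExpandsGE f.symm 𝒰 n N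

end Pool.Agent.N520.P
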