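import Pool.Agent.N520.P.A4
import Pool.Agent.N520.P.A5
import Pool.Agent.N520.P.Def
import Pool.Agent.Y330.H.P1

set_option autoImplicit false
set_option linter.unusedSectionVars false

open Filter Topology Set Metric unitInterval

namespace Pool.Agent.N520.P

open Pool.Agent.H721R2 Pool.Agent.H789R2.AN Pool.Agent.H789R2.GP Pool.Agent.TH304.K289
open Pool.Agent.TH289.L
open Pool.Agent.Y330.G Pool.Agent.Y330.H Pool.Agent.Y330.N

variable {X : Type*} [MetricSpace X] [CompactSpace X] {f : X ≃ₜ X} {q : ℕ} {c : ℝ}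
  {𝒰 : Set (X × X)}

theorem Link.shift {x y : X} (h : Link f 𝒰 x y) (m : ℕ) : Link f 𝒰 (f^[m] x) (f^[m] y) := by
  intro k
  rw [← Function.iterate_add_apply, ← Function.iterate_add_apply]
  exact h (k + m)

theorem Link.comm {x y : X} (h : Link f 𝒰 x y) : Link f 𝒰 y x := fun k => ⟨(h k).2, (h k).1⟩

theorem link_refl (h𝒰 : 𝒰 ∈ 𝓝ˢ (diagonal X)) (x : X) : Link f 𝒰 x x := fun k =>
  have h := mem_of_mem_nhds (mem_nhdsSet_iff_forall.1 h𝒰 (f^[k] x, f^[k] x) rfl)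
  ⟨h, h⟩

theorem sr_of_link (hc : ∀ p ∈ 𝒰, dist p.1 p.2 ≤ c) {x y : X} (h : Link f 𝒰 x y) :
    SR (iterHomeo f q) c x y := by
  intro k
  rw [it_iter, it_iter]
  exact hc _ (h _).1

theorem link_of_sr (f : X ≃ₜ X) (hq : 1 ≤ q) (h𝒰 : 𝒰 ∈ 𝓝ˢ (diagonal X)) :
    ∃ r > 0, ∀ x y, SR (iterHomeo f q) r x y → Link f 𝒰 x y := by
  obtain ⟨ε, hε, h1⟩ := (diag_iff _).1 h𝒰
  obtain ⟨η, hη, h2⟩ := T1_unif f q hε
  refine ⟨η / 2, half_pos hη, fun x y h n => ?_⟩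
  have hnn : n = n % q + q * (n / q) := (Nat.mod_add_div n q).symm
  have h3 := h (n / q)
  rw [it_iter, it_iter] at h3
  have h4 : dist (f^[n] x) (f^[n] y) < ε := by
    rw [hnn, Function.iterate_add_apply, Function.iterate_add_apply]
    exact h2 (n % q) (Nat.mod_lt _ (by omega)).le _ _ (by linarith)
  exact ⟨h1 _ _ h4, h1 _ _ (by rwa [dist_comm])⟩

theorem sr_fwd {g : X ≃ₜ X} (hg : LP g c) {κ : ℝ} {a : ℕ} (ha : c * (1 / 2) ^ a ≤ κ) {x y : X}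
    (h : SR g c x y) : SR g κ (g^[a] x) (g^[a] y) := sr_back hg.symm ha h

/-- the expansion bound for the iterate -/
theorem eS_of (hg : LP (iterHomeo f q) c) (hc : ∀ p ∈ 𝒰, dist p.1 p.2 ≤ c) {κ : ℝ}
    (hr : ∀ x y, SR (iterHomeo f q) κ x y → Link f 𝒰 x y) {a : ℕ} (ha : c * (1 / 2) ^ a ≤ κ)
    {k₀ M : ℕ} (hE : ExpandsLE f 𝒰 k₀ M) {k : ℕ} (hk : k + 2 * a = k₀ / q) (x y : X)
    (h : SR (iterHomeo f q) c x y) :
    Chn (SR (iterHomeo f q) κ) M ((iterHomeo f q).symm^[k] x) ((iterHomeo f q).symm^[k] y) := by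
  set g := iterHomeo f q with hgd
  have h1 := hE _ _ (hr _ _ (sr_fwd hg ha h))
  have hqk : q * (k + 2 * a) ≤ k₀ := by
    rw [hk]
    exact Nat.mul_div_le k₀ q
  have h2 : Chn (SR g κ) M (g^[a] (f^[k₀ - q * (k + 2 * a)] (f.symm^[k₀] (g^[a] x))))
      (g^[a] (f^[k₀ - q * (k + 2 * a)] (f.symm^[k₀] (g^[a] y)))) :=
    Chn.map (φ := fun z => g^[a] (f^[k₀ - q * (k + 2 * a)] z)) h1
      fun u v huv => sr_fwd hg ha (sr_of_link hc (huv.shift _))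
  have e : ∀ z : X, g^[a] (f^[k₀ - q * (k + 2 * a)] (f.symm^[k₀] (g^[a] z))) = g.symm^[k] z := by
    intro z
    rw [fw f (Nat.sub_le _ _), Nat.sub_sub_self hqk, ← it_symm_iter, ← hgd,
      fw g (i := a) (m := k + 2 * a) (by omega), show k + 2 * a - a = k + a by omega,
      Function.iterate_add_apply, iterL]
  rwa [e, e] at h2

/-- the contraction of chains for the iterate -/
theorem cS_of (hg : LP (iterHomeo f q) c) (hc : ∀ p ∈ 𝒰, dist p.1 p.2 ≤ c) {κ : ℝ}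
    (hr : ∀ x y, SR (iterHomeo f q) κ x y → Link f 𝒰 x y) {a : ℕ} (ha : c * (1 / 2) ^ a ≤ κ)
    {t M : ℕ} (hC : ExpandsGE f 𝒰 t M) {n : ℕ} (hn : t ≤ q * n) (x y : X)
    (h : Chn (SR (iterHomeo f q) c) M x y) :
    SR (iterHomeo f q) κ ((iterHomeo f q)^[n + 2 * a] x) ((iterHomeo f q)^[n + 2 * a] y) := by
  set g := iterHomeo f q with hgd
  have h1 : Chn (Link f 𝒰) M (g^[a] x) (g^[a] y) := h.map fun u v huv => hr _ _ (sr_fwd hg ha huv)
  have h2 : Link f 𝒰 (f^[t] (g^[a] x)) (f^[t] (g^[a] y)) := by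
    apply hC
    rw [iterL, iterL]
    exact h1
  have h3 := h2.shift (q * n - t)
  have e : ∀ z : X, f^[q * n - t] (f^[t] (g^[a] z)) = g^[n + a] z := by
    intro z
    rw [← Function.iterate_add_apply, Nat.sub_add_cancel hn, ← it_iter, ← hgd,
      ← Function.iterate_add_apply]
  rw [e, e] at h3
  have h4 := sr_fwd hg ha (sr_of_link (q := q) hc h3)
  rw [← Function.iterate_add_apply, ← Function.iterate_add_apply] at h4
  rwa [show n + 2 * a = a + (n + a) by ring]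

/-- transfer of the growth gaps -/
theorem gapR_of (hq : 1 ≤ q) (hg : LP (iterHomeo f q) c) (h𝒰 : 𝒰 ∈ 𝓝ˢ (diagonal X))
    (hc : ∀ p ∈ 𝒰, dist p.1 p.2 ≤ c) {κ : ℝ} (hσ : 0 < κ) (hσc : κ ≤ c) (b₀ : ℕ) : ∃ b : ℕ,
    ∀ K k₀ m₀ N J : ℕ, b ≤ k₀ → b ≤ m₀ → ExpandsLE f 𝒰 k₀ N → ExpandsLE f.symm 𝒰 m₀ J →
      ExpandsGE f 𝒰 (k₀ + m₀ - b) (K * N) → ExpandsGE f.symm 𝒰 (k₀ + m₀ - b) (K * J) →
      ∃ k m : ℕ, b₀ ≤ k ∧ b₀ ≤ m ∧ k + m ≤ k₀ + m₀ ∧ GapR (iterHomeo f q) c κ K k m N J := by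
  obtain ⟨r₁, hr₁, h1⟩ := link_of_sr f hq h𝒰
  obtain ⟨r₂, hr₂, h2⟩ := link_of_sr f.symm hq h𝒰
  set σ' := min κ (min r₁ r₂) with hσ'
  have hσ'0 : 0 < σ' := lt_min hσ (lt_min hr₁ hr₂)
  have m1 : σ' ≤ κ := min_le_left _ _
  have m3 : σ' ≤ r₁ := (min_le_right _ _).trans (min_le_left _ _)
  have m4 : σ' ≤ r₂ := (min_le_right _ _).trans (min_le_right _ _)
  obtain ⟨a, ha⟩ := pw (c := c) hσ'0
  have hsy : (iterHomeo f q).symm = iterHomeo f.symm q := it_symm f q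
  have hg' : LP (iterHomeo f.symm q) c := by rw [← hsy]; exact hg.symm
  have h1' : ∀ x y, SR (iterHomeo f q) σ' x y → Link f 𝒰 x y := fun x y h => h1 _ _ (h.mono m3)
  have h2' : ∀ x y, SR (iterHomeo f.symm q) σ' x y → Link f.symm 𝒰 x y := fun x y h =>
    h2 _ _ (h.mono m4)
  refine ⟨q * (b₀ + 6 * a + 2), fun K k₀ m₀ N J hk hm e1 e2 c1 c2 => ?_⟩
  have hqk : b₀ + 6 * a + 2 ≤ k₀ / q := (Nat.le_div_iff_mul_le (by omega)).2 (by rwa [Nat.mul_comm])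
  have hqm : b₀ + 6 * a + 2 ≤ m₀ / q := (Nat.le_div_iff_mul_le (by omega)).2 (by rwa [Nat.mul_comm])
  have hk' : k₀ / q - 2 * a + 2 * a = k₀ / q := by omega
  have hm' : m₀ / q - 2 * a + 2 * a = m₀ / q := by omega
  have l1 : k₀ / q ≤ k₀ := Nat.div_le_self _ _
  have l2 : m₀ / q ≤ m₀ := Nat.div_le_self _ _
  have hq0 : 0 < q := by omega
  have l3 : k₀ < q * (k₀ / q) + q := by
    have := Nat.lt_mul_div_succ k₀ hq0
    rwa [Nat.mul_add, Nat.mul_one] at this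
  have l4 : m₀ < q * (m₀ / q) + q := by
    have := Nat.lt_mul_div_succ m₀ hq0
    rwa [Nat.mul_add, Nat.mul_one] at this
  set k := k₀ / q - 2 * a with hkd
  set m := m₀ / q - 2 * a with hmd
  have hn : k₀ + m₀ - q * (b₀ + 6 * a + 2) ≤ q * (k + m - 2 * a) := by
    have h3 : q * (k₀ / q) + q * (m₀ / q) ≤ q * (k + m - 2 * a) + q * (6 * a) := by
      rw [← Nat.mul_add, ← Nat.mul_add]
      exact Nat.mul_le_mul_left _ (by omega)
    have h4 : q * (b₀ + 6 * a + 2) = q * b₀ + q * (6 * a) + 2 * q := by ring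
    omega
  have hnn : k + m - 2 * a + 2 * a = k + m := by omega
  refine ⟨k, m, by omega, by omega, by omega, ?_, ?_, ?_, ?_⟩
  · intro x y h
    exact (eS_of hg hc h1' ha e1 hk' x y (h.mono hσc)).sr_mono m1
  · intro x y h
    rw [hsy] at h ⊢
    exact (eS_of hg' hc h2' ha e2 hm' x y (h.mono hσc)).sr_mono m1
  · intro x y h
    have := cS_of hg hc h1' ha c1 hn x y h
    rw [hnn] at this
    exact this.mono m1
  · intro x y h
    rw [hsy] at h ⊢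
    have := cS_of hg' hc h2' ha c2 hn x y h
    rw [hnn] at this
    exact this.mono m1

end Pool.Agent.N520.P
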