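import Pool.Agent.N520.P.A6

set_option autoImplicit false
set_option linter.unusedSectionVars false

open Filter Topology Set Metric unitInterval

namespace Pool.Agent.N520.P

open Pool.Agent.H721R2 Pool.Agent.H789R2.AN Pool.Agent.H789R2.GP Pool.Agent.TH304.K289
open Pool.Agent.TH289.L
open Pool.Agent.Y330.G Pool.Agent.Y330.H Pool.Agent.Y330.N

variable {X : Type*} [MetricSpace X] [CompactSpace X] {f : X ≃ₜ X} {q : ℕ} {c : ℝ}
  {𝒰 : Set (X × X)}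

theorem gaps_of (hq : 1 ≤ q) (hg : LP (iterHomeo f q) c) (h𝒰 : 𝒰 ∈ 𝓝ˢ (diagonal X))
    (hc : ∀ p ∈ 𝒰, dist p.1 p.2 ≤ c) (h : GrowthGap f 𝒰) : Gaps (iterHomeo f q) c := by
  intro κ hκ hκc b₀ K
  obtain ⟨b, hb⟩ := gapR_of hq hg h𝒰 hc hκ hκc b₀
  obtain ⟨k₀, m₀, N, J, h1, h2, h3, h4, h5, h6⟩ := h b K
  obtain ⟨k, m, k1, k2, -, k3⟩ := hb K k₀ m₀ N J h1 h2 h3 h4 h5 h6
  exact ⟨k, m, N, J, k1, k2, k3⟩

theorem logGaps_of (hq : 1 ≤ q) (hg : LP (iterHomeo f q) c) (h𝒰 : 𝒰 ∈ 𝓝ˢ (diagonal X))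
    (hc : ∀ p ∈ 𝒰, dist p.1 p.2 ≤ c) (h : LogGrowthGap f 𝒰) : LogGaps (iterHomeo f q) c := by
  intro κ hκ hκc b₀
  obtain ⟨b, hb⟩ := gapR_of hq hg h𝒰 hc hκ hκc b₀
  obtain ⟨A, hA⟩ := h b
  refine ⟨A, fun K => ?_⟩
  obtain ⟨k₀, m₀, N, J, h0, h1, h2, h3, h4, h5, h6⟩ := hA K
  obtain ⟨k, m, k1, k2, k4, k3⟩ := hb K k₀ m₀ N J h1 h2 h3 h4 h5 h6
  exact ⟨k, m, N, J, k1, k2, k4.trans h0, k3⟩

theorem LogGrowthGap.gap {M : Type*} [TopologicalSpace M] {f : M ≃ₜ M} {𝒰 : Set (M × M)}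
    (h : LogGrowthGap f 𝒰) : GrowthGap f 𝒰 := by
  intro b K
  obtain ⟨A, hA⟩ := h b
  obtain ⟨k, m, N, J, -, h1⟩ := hA K
  exact ⟨k, m, N, J, h1⟩

/-- automatic lower bound for the expansion -/
theorem autoGE (hq : 1 ≤ q) (hg : LP (iterHomeo f q) c) (h𝒰 : 𝒰 ∈ 𝓝ˢ (diagonal X))
    (hc : ∀ p ∈ 𝒰, dist p.1 p.2 ≤ c) :
    ∃ a : ℕ, ∀ s t M : ℕ, q * (s + a) ≤ t → M ≤ 2 ^ s → ExpandsGE f 𝒰 t M := by
  obtain ⟨r, hr, h1⟩ := link_of_sr f hq h𝒰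
  obtain ⟨a, ha⟩ := pw (c := c) hr
  have hc0 := hg.c_pos
  refine ⟨a, fun s t M ht hM x y hxy => ?_⟩
  have h2 : Chn (SR (iterHomeo f q) c) M (f.symm^[t] x) (f.symm^[t] y) :=
    Chn.imp hxy fun _ _ h => sr_of_link hc h
  have h3 := chn_contr hg (κ := r) (n := s + a) (by
    have e : (2 : ℝ) ^ s * (c * (1 / 2) ^ (s + a)) = c * (1 / 2) ^ a := by
      rw [pow_add]
      have : (2 : ℝ) ^ s * (1 / 2) ^ s = 1 := by
        rw [← mul_pow]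
        norm_num
      calc (2 : ℝ) ^ s * (c * ((1 / 2) ^ s * (1 / 2) ^ a)) =
          (2 ^ s * (1 / 2) ^ s) * (c * (1 / 2) ^ a) := by ring
        _ = _ := by rw [this, one_mul]
    have hM' : (M : ℝ) ≤ 2 ^ s := by exact_mod_cast hM
    calc (M : ℝ) * (c * (1 / 2) ^ (s + a)) ≤ 2 ^ s * (c * (1 / 2) ^ (s + a)) :=
          mul_le_mul_of_nonneg_right hM' (by positivity)
      _ ≤ r := by rw [e]; exact ha) h2
  have h4 := (h1 _ _ h3).shift (t - q * (s + a))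
  rw [it_iter, it_iter, ← Function.iterate_add_apply, ← Function.iterate_add_apply,
    Nat.sub_add_cancel ht, iterR, iterR] at h4
  exact h4

/-- automatic upper bound for the expansion -/
theorem autoLE (hq : 1 ≤ q) (hg : LP (iterHomeo f q) c) (hX : ULC X) : ∃ c' > 0, c' ≤ c ∧
    ∀ 𝒰 ∈ 𝓝ˢ (diagonal X), (∀ p ∈ 𝒰, dist p.1 p.2 ≤ c') →
      ∃ B : ℕ, ∀ t, ExpandsLE f 𝒰 t (B ^ (t + 1)) := by
  obtain ⟨c', hc', hcc, hexp⟩ := exp_all hg hX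
  refine ⟨c', hc', hcc, fun 𝒰 h𝒰 hc => ?_⟩
  obtain ⟨r, hr, h1⟩ := link_of_sr f hq h𝒰
  obtain ⟨B, hB⟩ := hexp r hr
  refine ⟨B, fun t x y hxy => ?_⟩
  have h2 := hB t x y (sr_of_link hc hxy)
  rw [it_symm_iter, it_symm_iter] at h2
  have ht : t ≤ q * (t + 1) := by nlinarith
  have h3 : Chn (Link f 𝒰) (B ^ (t + 1)) (f^[q * (t + 1) - t] (f.symm^[q * (t + 1)] x))
      (f^[q * (t + 1) - t] (f.symm^[q * (t + 1)] y)) :=
    h2.map fun u v huv => (h1 _ _ huv).shift _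
  rwa [fw f (Nat.sub_le _ _), fw f (Nat.sub_le _ _), Nat.sub_sub_self ht] at h3

theorem ExpandsGE.comp {M : Type*} [TopologicalSpace M] {f : M ≃ₜ M} {𝒰 : Set (M × M)}
    {t₁ t₂ M₁ M₂ : ℕ} (h1 : ExpandsGE f 𝒰 t₁ M₁) (h2 : ExpandsGE f 𝒰 t₂ M₂) :
    ExpandsGE f 𝒰 (t₁ + t₂) (M₂ * M₁) := by
  intro x y hxy
  have hxy' : Chn (Link f 𝒰) (M₂ * M₁) (f.symm^[t₁ + t₂] x) (f.symm^[t₁ + t₂] y) := hxy
  have hR : ∀ (t : ℕ) (z : M), f^[t] (f.symm^[t] z) = z := fun t z =>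
    (Function.LeftInverse.iterate f.apply_symm_apply t) z
  have hL : ∀ (t : ℕ) (z : M), f.symm^[t] (f^[t] z) = z := fun t z =>
    (Function.LeftInverse.iterate f.symm_apply_apply t) z
  have h3 : Chn (Link f 𝒰) M₂ (f^[t₁] (f.symm^[t₁ + t₂] x)) (f^[t₁] (f.symm^[t₁ + t₂] y)) :=
    hxy'.group (φ := f^[t₁]) fun u v huv => h1 _ _ (by
      rw [hL, hL]
      exact huv)
  rw [Function.iterate_add_apply, Function.iterate_add_apply, hR, hR] at h3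
  exact h2 _ _ h3

/-- uniform growth of the stable leaves gives the growth gap -/
theorem log_of_uniform {M : Type*} [TopologicalSpace M] {f : M ≃ₜ M} {𝒰 : Set (M × M)}
    {q a B : ℕ}
    (hGE : ∀ s t M : ℕ, q * (s + a) ≤ t → M ≤ 2 ^ s → ExpandsGE f 𝒰 t M)
    (hGE' : ∀ s t M : ℕ, q * (s + a) ≤ t → M ≤ 2 ^ s → ExpandsGE f.symm 𝒰 t M)
    (hLE' : ∀ t, ExpandsLE f.symm 𝒰 t (B ^ (t + 1))) :
    ∃ L > 1, UniformGrowth f 𝒰 L → LogGrowthGap f 𝒰 := by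
  -- the rate
  set P : ℕ := q * B * q + 1 with hP
  have hP0 : (0 : ℝ) < P := by
    have : 0 < P := by omega
    exact_mod_cast this
  refine ⟨(2 : ℝ) ^ ((1 : ℝ) / P), Real.one_lt_rpow (by norm_num) (by positivity), fun h => ?_⟩
  obtain ⟨C, hC⟩ := h
  have hpow : ∀ j : ℕ, ((2 : ℝ) ^ ((1 : ℝ) / P)) ^ (P * j) = 2 ^ j := by
    intro j
    rw [pow_mul, ← Real.rpow_natCast ((2 : ℝ) ^ ((1 : ℝ) / P)) P, ← Real.rpow_mul (by norm_num),
      one_div_mul_cancel hP0.ne', Real.rpow_one]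
  set C' : ℕ := ⌈C⌉₊ + 1 with hC'
  have hCC : C ≤ C' := by
    have := Nat.le_ceil C
    push_cast [hC']
    linarith
  intro b
  -- the coefficient of the times
  set R₀ : ℕ := q + q * B * (q * (1 + C' + a) + b + 1) + q * a + b with hR₀
  refine ⟨(P * R₀ + (q * (1 + C' + R₀ + a) + b)), fun K => ?_⟩
  set ℓ := Nat.log 2 (K + 1) with hℓ
  have hK : K ≤ 2 ^ (ℓ + 1) := by
    have := Nat.lt_pow_succ_log_self (b := 2) (by norm_num) (K + 1)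
    rw [← hℓ] at this
    omega
  set j := R₀ * (ℓ + 1) with hj
  set s₁ := ℓ + 1 + C' + j with hs₁
  set m := q * (s₁ + a) + b with hm
  set s₂ := ℓ + 1 + B * (m + 1) with hs₂
  set k := P * j with hk
  have hkb : q * (s₂ + a) + b ≤ k := by
    have e1 : (q + q * B * (q * (1 + C' + a) + b + 1) + q * a + b) * (ℓ + 1) = j := by
      rw [hj, hR₀]
    have e2 : q * (s₂ + a) + b = q * (ℓ + 1) + q * B * (q * (ℓ + 1) + q * (C' + a) + b + 1) +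
        q * a + b + q * B * q * j := by
      rw [hs₂, hm, hs₁]
      ring
    have e3 : q * (ℓ + 1) + q * B * (q * (ℓ + 1) + q * (C' + a) + b + 1) + q * a + b ≤ j := by
      rw [← e1]
      have f1 : q * (ℓ + 1) + q * (C' + a) + b + 1 ≤ (q * (1 + C' + a) + b + 1) * (ℓ + 1) := by
        have : (q * (1 + C' + a) + b + 1) * (ℓ + 1) =
          q * (ℓ + 1) + q * (C' + a) + b + 1 + (q * (C' + a) + b + 1) * ℓ := by ring
        omega
      have f2 := Nat.mul_le_mul_left (q * B) f1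
      have f3 : q * a + b ≤ (q * a + b) * (ℓ + 1) := Nat.le_mul_of_pos_right _ (by omega)
      calc q * (ℓ + 1) + q * B * (q * (ℓ + 1) + q * (C' + a) + b + 1) + q * a + b
          ≤ q * (ℓ + 1) + q * B * ((q * (1 + C' + a) + b + 1) * (ℓ + 1)) +
            (q * a + b) * (ℓ + 1) := by omega
        _ = _ := by ring
    rw [e2, hk, hP]
    have e4 : (q * B * q + 1) * j = q * B * q * j + j := by ring
    omega
  have hbm : b ≤ m := by omega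
  have hbk : b ≤ k := le_trans (Nat.le_add_left _ _) hkb
  obtain ⟨N₁, h1, h2⟩ := hC k
  set N := C' * 2 ^ j * N₁ with hN
  have hLE : ExpandsLE f 𝒰 k N := by
    apply h2
    rw [hk, hpow, hN]
    push_cast
    exact mul_le_mul_of_nonneg_right (mul_le_mul_of_nonneg_right hCC (by positivity))
      (Nat.cast_nonneg _)
  have hKN : K * (C' * 2 ^ j) ≤ 2 ^ s₁ := by
    have e1 : 2 ^ s₁ = 2 ^ (ℓ + 1) * (2 ^ C' * 2 ^ j) := by
      rw [hs₁, pow_add, pow_add]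
      ring
    rw [e1]
    exact Nat.mul_le_mul hK (Nat.mul_le_mul_right _ Nat.lt_two_pow_self.le)
  have hKJ : K * B ^ (m + 1) ≤ 2 ^ s₂ := by
    rw [hs₂, pow_add 2 (ℓ + 1), pow_mul]
    exact Nat.mul_le_mul hK (Nat.pow_le_pow_left Nat.lt_two_pow_self.le _)
  refine ⟨k, m, N, B ^ (m + 1), ?_, hbk, hbm, hLE, hLE' m, ?_, ?_⟩
  · have e1 : m ≤ (q * (1 + C' + R₀ + a) + b) * (ℓ + 1) := by
      have e2 : s₁ + a ≤ (1 + C' + R₀ + a) * (ℓ + 1) := by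
        have e3 : (1 + C' + R₀ + a) * (ℓ + 1) = ℓ + 1 + C' + j + a + (C' + a) * ℓ := by
          rw [hj]
          ring
        omega
      calc m ≤ q * ((1 + C' + R₀ + a) * (ℓ + 1)) + b * (ℓ + 1) :=
            Nat.add_le_add (Nat.mul_le_mul_left _ e2) (Nat.le_mul_of_pos_right _ (by omega))
        _ = _ := by ring
    have e5 : k = P * R₀ * (ℓ + 1) := by rw [hk, hj]; ring
    calc k + m ≤ P * R₀ * (ℓ + 1) + (q * (1 + C' + R₀ + a) + b) * (ℓ + 1) :=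
          Nat.add_le_add e5.le e1
      _ = _ := (Nat.add_mul _ _ _).symm
  · have h3 := h1.comp (hGE s₁ (q * (s₁ + a)) (K * (C' * 2 ^ j)) le_rfl hKN)
    have e : k + m - b = k + q * (s₁ + a) := by omega
    have e' : K * N = K * (C' * 2 ^ j) * N₁ := by rw [hN]; ring
    rw [e, e']
    exact h3
  · exact hGE' s₂ _ _ (by omega) hKJ

end Pool.Agent.N520.P
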