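import Pool.Agent.N520.P.Def

set_option autoImplicit false

open Filter Topology Set

namespace Pool.Agent.N520.P

/-- the choice of times, one side -/
theorem time_bound {C' a₁ a₂ D T θ δ : ℝ} {b K k n ℓ : ℕ} (hC : 1 ≤ C') (h1 : 1 < a₁)
    (h2 : a₁ ≤ a₂) (hK : (K : ℝ) + 1 ≤ 2 ^ (ℓ + 1)) (hT : T = D * (ℓ + 1))
    (hθ : θ + δ = Real.log a₁ / Real.log a₂)
    (hD : Real.log (2 * C' ^ 2) + 1 + Real.log a₂ + b * Real.log a₁ ≤ D * (δ * Real.log a₂))
    (hk : (k : ℝ) ≤ θ * T + 1) (hn : T - b ≤ n) :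
    C' * ((K * ⌈C' * a₂ ^ k⌉₊ : ℕ) : ℝ) ≤ a₁ ^ n := by
  have ha10 : 0 < a₁ := by linarith
  have ha20 : 0 < a₂ := by linarith
  have ha1 : 0 < Real.log a₁ := Real.log_pos h1
  have ha2 : 0 < Real.log a₂ := Real.log_pos (by linarith)
  have hx : 1 ≤ C' * a₂ ^ k := by
    have : 1 ≤ a₂ ^ k := one_le_pow₀ (by linarith)
    nlinarith
  have hceil : ((⌈C' * a₂ ^ k⌉₊ : ℕ) : ℝ) ≤ 2 * (C' * a₂ ^ k) := by
    have := (Nat.ceil_lt_add_one (show 0 ≤ C' * a₂ ^ k by linarith)).le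
    linarith
  have hC0 : 0 < C' := by linarith
  have hlog2 : Real.log 2 ≤ 1 := by
    have := Real.log_two_lt_d9
    linarith
  -- the logarithmic inequality
  have key : Real.log (2 * C' ^ 2) + (ℓ + 1) * Real.log 2 + k * Real.log a₂ ≤ n * Real.log a₁ := by
    have e1 : T * Real.log a₁ = T * ((θ + δ) * Real.log a₂) := by
      rw [hθ]
      field_simp
    have e2 : (T - b) * Real.log a₁ ≤ n * Real.log a₁ := mul_le_mul_of_nonneg_right hn ha1.le
    have e3 : (k : ℝ) * Real.log a₂ ≤ (θ * T + 1) * Real.log a₂ :=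
      mul_le_mul_of_nonneg_right hk ha2.le
    have hl : (1 : ℝ) ≤ ℓ + 1 := by
      have : (0 : ℝ) ≤ ℓ := Nat.cast_nonneg ℓ
      linarith
    have hlC : 0 ≤ Real.log (2 * C' ^ 2) := Real.log_nonneg (by nlinarith)
    have e4 : (Real.log (2 * C' ^ 2) + 1 + Real.log a₂ + b * Real.log a₁) * (ℓ + 1) ≤
        D * (δ * Real.log a₂) * (ℓ + 1) := mul_le_mul_of_nonneg_right hD (by linarith)
    have e5 : T * (δ * Real.log a₂) = D * (δ * Real.log a₂) * (ℓ + 1) := by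
      rw [hT]
      ring
    have e6 : 0 ≤ Real.log (2 * C' ^ 2) + Real.log a₂ + b * Real.log a₁ := by positivity
    have e7 : Real.log (2 * C' ^ 2) + Real.log a₂ + b * Real.log a₁ ≤
        (Real.log (2 * C' ^ 2) + Real.log a₂ + b * Real.log a₁) * (ℓ + 1) :=
      le_mul_of_one_le_right e6 hl
    have e8 : (ℓ + 1) * Real.log 2 ≤ (ℓ + 1 : ℝ) := mul_le_of_le_one_right (by linarith) hlog2
    nlinarith
  have hpos : 0 < 2 * C' ^ 2 * 2 ^ (ℓ + 1) * a₂ ^ k := by positivity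
  have h3 : 2 * C' ^ 2 * 2 ^ (ℓ + 1) * a₂ ^ k ≤ a₁ ^ n := by
    rw [← Real.log_le_log_iff hpos (by positivity), Real.log_mul (by positivity) (by positivity),
      Real.log_mul (by positivity) (by positivity), Real.log_pow, Real.log_pow, Real.log_pow]
    push_cast
    linarith
  push_cast
  calc C' * ((K : ℝ) * (⌈C' * a₂ ^ k⌉₊ : ℝ)) ≤ C' * (2 ^ (ℓ + 1) * (2 * (C' * a₂ ^ k))) := by
        apply mul_le_mul_of_nonneg_left _ hC0.le
        apply mul_le_mul (by linarith) hceil (by positivity) (by positivity)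
    _ = 2 * C' ^ 2 * 2 ^ (ℓ + 1) * a₂ ^ k := by ring
    _ ≤ a₁ ^ n := h3

/-- pinched growth gives the growth gap -/
theorem log_of_pinched {M : Type*} [TopologicalSpace M] {f : M ≃ₜ M} {𝒰 : Set (M × M)}
    (h : PinchedGrowth f 𝒰) : LogGrowthGap f 𝒰 := by
  obtain ⟨C, a₁, a₂, b₁, b₂, ha1, ha2, hb1, hb2, hp, h1, h2, h3, h4⟩ := h
  intro b
  set C' := max C 1 with hC'
  have hC1 : 1 ≤ C' := le_max_right _ _
  have hCC : C ≤ C' := le_max_left _ _
  have ha20 : 0 < a₂ := by linarith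
  have hb20 : 0 < b₂ := by linarith
  have la1 : 0 < Real.log a₁ := Real.log_pos ha1
  have la2 : 0 < Real.log a₂ := Real.log_pos (by linarith)
  have lb1 : 0 < Real.log b₁ := Real.log_pos hb1
  have lb2 : 0 < Real.log b₂ := Real.log_pos (by linarith)
  set α := Real.log a₁ / Real.log a₂ with hα
  set β := Real.log b₁ / Real.log b₂ with hβ
  have hα0 : 0 < α := by positivity
  have hβ0 : 0 < β := by positivity
  have hα1 : α ≤ 1 := by
    rw [hα, div_le_one la2]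
    exact Real.log_le_log (by linarith) ha2
  have hβ1 : β ≤ 1 := by
    rw [hβ, div_le_one lb2]
    exact Real.log_le_log (by linarith) hb2
  set δ := (α + β - 1) / 2 with hδ
  have hδ0 : 0 < δ := by
    rw [hδ]
    linarith
  set θ := (α + 1 - β) / 2 with hθ
  have hθ0 : 0 < θ := by
    rw [hθ]
    linarith
  have hθ1 : 0 < 1 - θ := by
    rw [hθ]
    linarith
  set G₁ := Real.log (2 * C' ^ 2) + 1 + Real.log a₂ + b * Real.log a₁ with hG₁
  set G₂ := Real.log (2 * C' ^ 2) + 1 + Real.log b₂ + b * Real.log b₁ with hG₂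
  have hlC : 0 ≤ Real.log (2 * C' ^ 2) := Real.log_nonneg (by nlinarith)
  have hG₁0 : 0 ≤ G₁ := by positivity
  have hG₂0 : 0 ≤ G₂ := by positivity
  set D := G₁ / (δ * Real.log a₂) + G₂ / (δ * Real.log b₂) + b / θ + b / (1 - θ) with hD
  have t1 : 0 ≤ G₁ / (δ * Real.log a₂) := by positivity
  have t2 : 0 ≤ G₂ / (δ * Real.log b₂) := by positivity
  have t3 : 0 ≤ (b : ℝ) / θ := by positivity
  have t4 : 0 ≤ (b : ℝ) / (1 - θ) := by positivity
  have hD0 : 0 ≤ D := by positivity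
  have d1 : G₁ ≤ D * (δ * Real.log a₂) := by
    rw [← div_le_iff₀ (by positivity)]
    linarith
  have d2 : G₂ ≤ D * (δ * Real.log b₂) := by
    rw [← div_le_iff₀ (by positivity)]
    linarith
  have d3 : (b : ℝ) ≤ D * θ := by
    rw [← div_le_iff₀ (by positivity)]
    linarith
  have d4 : (b : ℝ) ≤ D * (1 - θ) := by
    rw [← div_le_iff₀ (by positivity)]
    linarith
  refine ⟨⌈D⌉₊ + 2, fun K => ?_⟩
  set ℓ := Nat.log 2 (K + 1) with hℓ
  have hK : (K : ℝ) + 1 ≤ 2 ^ (ℓ + 1) := by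
    have := (Nat.lt_pow_succ_log_self (b := 2) (by norm_num) (K + 1)).le
    rw [← hℓ] at this
    exact_mod_cast this
  set T := D * ((ℓ : ℝ) + 1) with hT
  have hl : (1 : ℝ) ≤ ℓ + 1 := by
    have : (0 : ℝ) ≤ ℓ := Nat.cast_nonneg ℓ
    linarith
  have hT0 : 0 ≤ T := by positivity
  set k := ⌈θ * T⌉₊ with hk
  set m := ⌈(1 - θ) * T⌉₊ with hm
  have k1 : θ * T ≤ k := Nat.le_ceil _
  have m1 : (1 - θ) * T ≤ m := Nat.le_ceil _
  have k2 : (k : ℝ) ≤ θ * T + 1 := (Nat.ceil_lt_add_one (by positivity)).le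
  have m2 : (m : ℝ) ≤ (1 - θ) * T + 1 := (Nat.ceil_lt_add_one (by positivity)).le
  have hbk : b ≤ k := by
    have : (b : ℝ) ≤ k := by
      refine le_trans d3 (le_trans ?_ k1)
      have := le_mul_of_one_le_right (mul_nonneg hD0 hθ0.le) hl
      linarith [this]
    exact_mod_cast this
  have hbm : b ≤ m := by
    have : (b : ℝ) ≤ m := by
      refine le_trans d4 (le_trans ?_ m1)
      have := le_mul_of_one_le_right (mul_nonneg hD0 hθ1.le) hl
      linarith [this]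
    exact_mod_cast this
  have hn : T - b ≤ ((k + m - b : ℕ) : ℝ) := by
    rw [Nat.cast_sub (by omega)]
    push_cast
    linarith
  have hsum : k + m ≤ (⌈D⌉₊ + 2) * (ℓ + 1) := by
    have h5 : ((k + m : ℕ) : ℝ) ≤ ((⌈D⌉₊ + 2) * (ℓ + 1) : ℕ) := by
      push_cast
      have h6 : D ≤ ⌈D⌉₊ := Nat.le_ceil D
      have h7 : D * ((ℓ : ℝ) + 1) ≤ ⌈D⌉₊ * ((ℓ : ℝ) + 1) :=
        mul_le_mul_of_nonneg_right h6 (by linarith)
      nlinarith
    exact_mod_cast h5
  refine ⟨k, m, ⌈C' * a₂ ^ k⌉₊, ⌈C' * b₂ ^ m⌉₊, hsum, hbk, hbm, h1 _ _ ?_, h3 _ _ ?_, h2 _ _ ?_,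
    h4 _ _ ?_⟩
  · refine le_trans ?_ (Nat.le_ceil _)
    exact mul_le_mul_of_nonneg_right hCC (by positivity)
  · refine le_trans ?_ (Nat.le_ceil _)
    exact mul_le_mul_of_nonneg_right hCC (by positivity)
  · refine le_trans (mul_le_mul_of_nonneg_right hCC (Nat.cast_nonneg _)) ?_
    exact time_bound hC1 ha1 ha2 hK hT (θ := θ) (δ := δ) (by rw [hθ, hδ]; ring) d1 k2 hn
  · refine le_trans (mul_le_mul_of_nonneg_right hCC (Nat.cast_nonneg _)) ?_
    exact time_bound hC1 hb1 hb2 hK hT (θ := 1 - θ) (δ := δ) (by rw [hθ, hδ]; ring) d2 m2 hn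

end Pool.Agent.N520.P
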