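import Pool.Agent.N520.P.A7
import Pool.Agent.N520.P.A8
import Pool.Agent.Y330.N.B4

set_option autoImplicit false
set_option linter.unusedSectionVars false

open Filter Topology Set Metric
open scoped Manifold ContDiff Pointwise

namespace Pool.Agent.N520.P

open Pool.Agent.H721R2 Pool.Agent.H789R2.AN Pool.Agent.H789R2.GP Pool.Agent.TH304.K289
open Pool.Agent.TH289.L Pool.Agent.TH289 Pool.Agent.TH289.K
open Pool.Agent.Y330.G Pool.Agent.Y330.H Pool.Agent.Y330.J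
open Pool.Agent.W740.TU (anosov_symm transitive_symm)

theorem LogGrowthGap.symm {M : Type*} [TopologicalSpace M] {f : M ≃ₜ M} {𝒰 : Set (M × M)}
    (h : LogGrowthGap f.symm 𝒰) : LogGrowthGap f 𝒰 := by
  intro b
  obtain ⟨A, hA⟩ := h b
  refine ⟨A, fun K => ?_⟩
  obtain ⟨k, m, N, J, h0, h1, h2, h3, h4, h5, h6⟩ := hA K
  refine ⟨m, k, J, N, by omega, h2, h1, h4, h3, ?_, ?_⟩
  · rw [Nat.add_comm m k]
    exact h6
  · rw [Nat.add_comm m k]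
    exact h5

section abs

variable {X : Type*} [MetricSpace X] [CompactSpace X] {f : X ≃ₜ X} {q : ℕ} {c : ℝ}
  {𝒰 : Set (X × X)}

theorem abs_gps (hq : 1 ≤ q) (hg : LP (iterHomeo f q) c) (hX : ULC X)
    (h𝒰 : 𝒰 ∈ 𝓝ˢ (diagonal X)) (hc : ∀ p ∈ 𝒰, dist p.1 p.2 ≤ c) (h : GrowthGap f 𝒰) :
    GPS f := by
  have hG := gaps_of hq hg h𝒰 hc h
  obtain ⟨c₁, hc₁, ⟨T⟩⟩ := exists_IQS hg hX (lf_of_gaps hg hX hG)
  exact gps_of_iqs hq rfl hg hc₁ T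

theorem abs_pg (hq : 1 ≤ q) (hg : LP (iterHomeo f q) c) (hX : ULC X)
    (h𝒰 : 𝒰 ∈ 𝓝ˢ (diagonal X)) (hc : ∀ p ∈ 𝒰, dist p.1 p.2 ≤ c) (h : LogGrowthGap f 𝒰) :
    PG X := by
  have hG := logGaps_of hq hg h𝒰 hc h
  obtain ⟨c₁, hc₁, hs⟩ := exists_sl hg
  exact pg_of_gaps hg hX (ex_of_lf hg hc₁ hs (lf_of_gaps hg hX hG.gaps)) hG

end abs


end Pool.Agent.N520.P
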