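import Pool.Agent.N520.P.A5
import Pool.Agent.Y330.H.B5

set_option autoImplicit false
set_option linter.unusedSectionVars false

open Filter Topology Set Metric unitInterval

namespace Pool.Agent.N520.P

open Pool.Agent.H789R2.AN Pool.Agent.H789R2.GP Pool.Agent.TH304.K289 Pool.Agent.TH289.L
open Pool.Agent.Y330.G Pool.Agent.Y330.H Pool.Agent.Y330.N

variable {X : Type*} [MetricSpace X] {g : X ≃ₜ X} {c : ℝ} {Lk : X → X → Prop} {c' r : ℝ}

/-- relations of links -/
structure LkS (g : X ≃ₜ X) (Lk : X → X → Prop) (c' r : ℝ) : Prop where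
  sy : ∀ x y, Lk x y → Lk y x
  fwd : ∀ x y, Lk x y → Lk (g x) (g y)
  le : ∀ x y, Lk x y → SR g c' x y
  ge : ∀ x y, SR g r x y → Lk x y

theorem LkS.fwds (h : LkS g Lk c' r) (n : ℕ) {x y : X} (hxy : Lk x y) : Lk (g^[n] x) (g^[n] y) := by
  induction n with
  | zero => exact hxy
  | succ n ih =>
    rw [Function.iterate_succ_apply', Function.iterate_succ_apply']
    exact h.fwd _ _ ih

theorem LkS.rfl' (h : LkS g Lk c' r) (hr : 0 < r) (x : X) : Lk x x := h.ge _ _ (sr_refl g hr.le x)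

/-- roundness at time `n` -/
def RR (g : X ≃ₜ X) (Lk : X → X → Prop) (n C : ℕ) : Prop :=
  ∀ x y z (M : ℕ), Lk x y → ¬ Lk x z → Chn Lk M (g.symm^[n] x) (g.symm^[n] z) →
    Chn Lk (C * M) (g.symm^[n] x) (g.symm^[n] y)

/-- the plaque at `x` has size at most `T` at time `-n` -/
def PT (g : X ≃ₜ X) (Lk : X → X → Prop) (n T : ℕ) (x : X) : Prop :=
  ∀ y, Lk x y → Chn Lk T (g.symm^[n] x) (g.symm^[n] y)

theorem PT.mono {n T T' : ℕ} {x : X} (hr : ∀ x, Lk x x) (h : PT g Lk n T x) (hT : T ≤ T') :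
    PT g Lk n T' x := fun y hy => (h y hy).pad hr hT

theorem RR.pt {n C M : ℕ} {x z : X} (h : RR g Lk n C) (hz : ¬ Lk x z)
    (hM : Chn Lk M (g.symm^[n] x) (g.symm^[n] z)) : PT g Lk n (C * M) x := fun y hy =>
  h x y z M hy hz hM

theorem dbound {C T A : ℕ} (hC : 1 ≤ C) : (T + 2) + (3 * C) ^ A * (C * (T + 2) + 2) ≤
    (3 * C) ^ (A + 1) * (T + 2) := by
  have h1 : C * (T + 2) + 2 ≤ 2 * C * (T + 2) := by nlinarith
  have h2 : (3 * C) ^ A * (C * (T + 2) + 2) ≤ (3 * C) ^ A * (2 * C * (T + 2)) :=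
    Nat.mul_le_mul_left _ h1
  have h3 : 1 ≤ (3 * C) ^ A := Nat.one_le_pow _ _ (by omega)
  have h4 : T + 2 ≤ (3 * C) ^ A * (C * (T + 2)) := by
    calc T + 2 = 1 * (1 * (T + 2)) := by ring
      _ ≤ (3 * C) ^ A * (C * (T + 2)) := Nat.mul_le_mul h3 (Nat.mul_le_mul_right _ hC)
  calc (T + 2) + (3 * C) ^ A * (C * (T + 2) + 2)
      ≤ (3 * C) ^ A * (C * (T + 2)) + (3 * C) ^ A * (2 * C * (T + 2)) := Nat.add_le_add h4 h2
    _ = (3 * C) ^ (A + 1) * (T + 2) := by ring

variable [CompactSpace X]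

/-- **The diameter lemma**: along a path in a plaque. -/
theorem diam_path (hg : LP g c) (hL : LkS g Lk c' r) (hr : 0 < r) :
    ∃ Q : ℕ, ∀ (n C : ℕ), 1 ≤ C → RR g Lk n C → ∀ (u : I → X), Continuous u →
      (∀ s t, SR g c (u s) (u t)) → ∀ T, PT g Lk n T (u 0) →
      Chn Lk ((3 * C) ^ (Q + 1) * (T + 2)) (g.symm^[n] (u 0)) (g.symm^[n] (u 1)) := by
  classical
  obtain ⟨η₁, hη₁, hq⟩ := qs_SR_of_dist hg r hr
  obtain ⟨Q, col, hcol⟩ := Y330.J.exists_col X (half_pos hη₁)
  refine ⟨Q, fun n C hC hR u hu hpl T hT => ?_⟩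
  have hcm : ∀ x, g.symm (g x) = g (g.symm x) := fun x => by
    rw [g.symm_apply_apply, g.apply_symm_apply]
  obtain ⟨ε₁, hε₁, h1⟩ := uc_map_iter (g := g) (φ := g.symm) hcm n r hr
  obtain ⟨η₂, hη₂, hq₂⟩ := qs_SR_of_dist hg ε₁ hε₁
  have hrf : ∀ x, Lk x x := fun x => hL.rfl' hr x
  have hnear : ∀ s t, dist (u s) (u t) < η₂ → Lk (g.symm^[n] (u s)) (g.symm^[n] (u t)) :=
    fun s t h => hL.ge _ _ (h1 _ _ (hq₂ _ _ (hpl s t) h))
  have key : ∀ (m : ℕ) (F : Finset (Fin (Q + 1))), F.card = m → ∀ (a : I) (T : ℕ),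
      (∀ s, a ≤ s → col (u s) ∈ F) → PT g Lk n T (u a) →
      Chn Lk ((3 * C) ^ m * (T + 2)) (g.symm^[n] (u a)) (g.symm^[n] (u 1)) := by
    intro m
    induction m with
    | zero =>
      intro F hF a T ha _
      have := ha a le_rfl
      rw [Finset.card_eq_zero.1 hF] at this
      exact absurd this (Finset.notMem_empty _)
    | succ m ih =>
      intro F hF a T ha hT
      set S : Set ℝ := {x | ∃ s : I, (s : ℝ) = x ∧ a ≤ s ∧ Lk (u a) (u s)} with hS
      have hSn : S.Nonempty := ⟨a, a, rfl, le_rfl, hrf _⟩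
      have hSb : BddAbove S := ⟨1, by rintro x ⟨s, rfl, -, -⟩; exact s.2.2⟩
      set b := sSup S with hb
      have hab : (a : ℝ) ≤ b := le_csSup hSb ⟨a, rfl, le_rfl, hrf _⟩
      have hb1 : b ≤ 1 := csSup_le hSn (by rintro x ⟨s, rfl, -, -⟩; exact s.2.2)
      have hb0 : 0 ≤ b := a.2.1.trans hab
      obtain ⟨δ, hδ, hball⟩ := Metric.continuous_iff.1 hu ⟨b, hb0, hb1⟩ η₂ hη₂
      obtain ⟨x, ⟨s, rfl, has, hκ⟩, hs⟩ :=
        exists_lt_of_lt_csSup hSn (show b - δ < sSup S by linarith)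
      have hsb : (s : ℝ) ≤ b := le_csSup hSb ⟨s, rfl, has, hκ⟩
      have k1 := hball s (by
        rw [Subtype.dist_eq, Real.dist_eq, abs_lt]
        constructor
        · show -δ < (s : ℝ) - b
          linarith
        · show (s : ℝ) - b < δ
          linarith)
      have k2 : Chn Lk (T + 1) (g.symm^[n] (u a)) (g.symm^[n] (u ⟨b, hb0, hb1⟩)) :=
        (hT _ hκ).snoc (hnear _ _ k1)
      rcases eq_or_lt_of_le hb1 with hb' | hb'
      · have e1 : (⟨b, hb0, hb1⟩ : I) = 1 := Subtype.ext hb'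
        rw [e1] at k2
        refine k2.pad hrf ?_
        have := Nat.one_le_pow (m + 1) (3 * C) (by omega)
        nlinarith
      · set s₁ : I := ⟨min 1 (b + δ / 2), le_min zero_le_one (by linarith), min_le_left _ _⟩
          with hs₁
        have hs₁b : b < (s₁ : ℝ) := by
          show b < min 1 (b + δ / 2)
          exact lt_min hb' (by linarith)
        have hs₁a : a ≤ s₁ := by
          show (a : ℝ) ≤ s₁
          linarith
        have k3 := hball s₁ (by
          rw [Subtype.dist_eq, Real.dist_eq, abs_lt]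
          constructor
          · show -δ < min 1 (b + δ / 2) - b
            linarith
          · show min 1 (b + δ / 2) - b < δ
            have := min_le_right 1 (b + δ / 2)
            linarith)
        have k4 : Chn Lk (T + 2) (g.symm^[n] (u a)) (g.symm^[n] (u s₁)) :=
          k2.snoc (hnear _ _ (by rwa [dist_comm]))
        have k5 : ¬ Lk (u a) (u s₁) := fun h => by
          have : (s₁ : ℝ) ≤ b := le_csSup hSb ⟨s₁, rfl, hs₁a, h⟩
          linarith
        have k6 : PT g Lk n (C * (T + 2)) (u s₁) :=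
          hR.pt (fun h => k5 (hL.sy _ _ h)) (k4.flip hL.sy)
        have k7 := ih (F.erase (col (u a))) (by
          rw [Finset.card_erase_of_mem (ha a le_rfl), hF, Nat.add_sub_cancel]) s₁ _
          (fun s' hs' => by
            have h7 : (s₁ : ℝ) ≤ s' := hs'
            refine Finset.mem_erase.2 ⟨fun hc => ?_, ha s' ?_⟩
            · have h8 : Lk (u a) (u s') := hL.ge _ _ (hq _ _ (hpl a s')
                (lt_of_le_of_lt (hcol _ _ hc.symm) (by linarith)))
              have : (s' : ℝ) ≤ b := le_csSup hSb ⟨s', rfl, ?_, h8⟩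
              · linarith
              · exact hs₁a.trans hs'
            · exact hs₁a.trans hs') k6
        exact (k4.trans k7).pad hrf (dbound hC)
  exact key (Q + 1) Finset.univ (by rw [Finset.card_univ, Fintype.card_fin]) 0 T
    (fun s _ => Finset.mem_univ _) hT

end Pool.Agent.N520.P
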