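import Pool.Agent.N520.P.B1

set_option autoImplicit false
set_option linter.unusedSectionVars false

open Filter Topology Set Metric unitInterval

namespace Pool.Agent.N520.P

open Pool.Agent.H789R2.AN Pool.Agent.H789R2.GP Pool.Agent.TH304.K289 Pool.Agent.TH289.L
open Pool.Agent.Y330.G Pool.Agent.Y330.H Pool.Agent.Y330.N

variable {X : Type*} [MetricSpace X] [CompactSpace X] {g : X ≃ₜ X} {c : ℝ}

/-- the plaques have a size bounded below -/
theorem size_pt [ConnectedSpace X] [Nontrivial X] (hg : LP g c) (hX : ULC X) {η : ℝ} (hη : 0 < η)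
    (hηc : η ≤ c) : ∃ δ > 0, ∀ x, ∃ z, SR g η x z ∧ δ ≤ dist x z := by
  have key : ∃ δ > 0, ∀ x ∈ (univ : Set X), ∃ z, SR g η x z ∧ δ ≤ dist x z := by
    refine (isCompact_univ (X := X)).induction_on
      (p := fun S => ∃ δ > 0, ∀ x ∈ S, ∃ z, SR g η x z ∧ δ ≤ dist x z) ?_ ?_ ?_ ?_
    · exact ⟨1, one_pos, fun v hv => absurd hv (notMem_empty v)⟩
    · rintro S T hST ⟨δ, hδ, h1⟩
      exact ⟨δ, hδ, fun v hv => h1 v (hST hv)⟩
    · rintro S T ⟨δ, hδ, h1⟩ ⟨δ', hδ', h2⟩
      refine ⟨min δ δ', lt_min hδ hδ', fun v hv => ?_⟩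
      rcases hv with hv | hv
      · obtain ⟨w, h3, h4⟩ := h1 v hv
        exact ⟨w, h3, (min_le_left _ _).trans h4⟩
      · obtain ⟨w, h3, h4⟩ := h2 v hv
        exact ⟨w, h3, (min_le_right _ _).trans h4⟩
    · intro v _
      obtain ⟨w, hw1, hw2⟩ := triv_none hg hX v (half_pos hη)
      have hd : 0 < dist v w := dist_pos.2 (Ne.symm hw2)
      obtain ⟨δ, hδ, hh⟩ := hol hg.symm (η := min (η / 2) (dist v w / 4))
        (lt_min (half_pos hη) (by positivity))
      refine ⟨ball v (min δ (dist v w / 4)), mem_nhdsWithin_of_mem_nhds (ball_mem_nhds v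
        (by positivity)), dist v w / 2, by positivity, fun v' hv' => ?_⟩
      have hv1 : dist v v' < min δ (dist v w / 4) := by rw [dist_comm]; exact hv'
      obtain ⟨w', h1, h2⟩ := hh (η / 2) (by linarith) v v' w (hv1.trans_le (min_le_left _ _)) hw1
      refine ⟨w', ?_, ?_⟩
      · have h3 : SR g (η / 2 + min (η / 2) (dist v w / 4)) v' w' := h2
        refine h3.mono ?_
        have := min_le_left (η / 2) (dist v w / 4)
        linarith
      · have h3 : dist w w' ≤ min (η / 2) (dist v w / 4) := h1 0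
        have h4 := h3.trans (min_le_right _ _)
        have h5 := hv1.trans_le (min_le_right _ _)
        have h6 := dist_triangle4 v v' w' w
        rw [dist_comm w' w] at h6
        linarith
  obtain ⟨δ, hδ, h⟩ := key
  exact ⟨δ, hδ, fun x => h x (mem_univ x)⟩

end Pool.Agent.N520.P
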