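import Pool.Agent.N520.P.B2

set_option autoImplicit false
set_option linter.unusedSectionVars false

open Filter Topology Set Metric unitInterval

namespace Pool.Agent.N520.P

open Pool.Agent.H789R2.AN Pool.Agent.H789R2.GP Pool.Agent.TH304.K289 Pool.Agent.TH289.L
open Pool.Agent.Y330.G Pool.Agent.Y330.H Pool.Agent.Y330.N

variable {X : Type*} [MetricSpace X] [CompactSpace X] {g : X ≃ₜ X} {c : ℝ} {Lk : X → X → Prop}
  {c' r : ℝ}

/-- rays in the plaques -/
theorem exists_ray [ConnectedSpace X] [Nontrivial X] (hg : LP g c) (hX : ULC X) : ∃ δ > 0, ∀ x,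
    ∃ u : I → X, Continuous u ∧ u 0 = x ∧ (∀ s t, SR g c (u s) (u t)) ∧ δ ≤ dist x (u 1) := by
  have hc := hg.c_pos
  obtain ⟨η, hη, hpath⟩ := leaf_path hg hX (c / 2) (half_pos hc)
  obtain ⟨δ, hδ, hz⟩ := size_pt hg hX (η := min η c) (lt_min hη hc) (min_le_right _ _)
  refine ⟨δ, hδ, fun x => ?_⟩
  obtain ⟨z, h1, h2⟩ := hz x
  obtain ⟨υ, u0, u1, u2⟩ := hpath ⟨x⟩ ⟨z⟩ ((SM.dist_le _ _ hη.le).2 (h1.mono (min_le_left _ _)))
  have e1 : ∀ t, SR g (c / 2) x (υ t).val := fun t => (SM.dist_le _ _ (half_pos hc).le).1 (u2 t)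
  refine ⟨fun t => (υ t).val, SM.val_continuous.comp υ.continuous, by
    show (υ 0).val = x
    rw [u0], fun s t => ?_, by
    show δ ≤ dist x (υ 1).val
    rw [u1]
    exact h2⟩
  exact (sr_tr (e1 s).symm' (e1 t)).mono (by linarith)

/-- a point at distance `≥ δ₁`, controlled at time `-n` -/
theorem reach (hg : LP g c) (hL : LkS g Lk c' r) (hr : 0 < r) {δ₁ : ℝ}
    (hray : ∀ x, ∃ u : I → X, Continuous u ∧ u 0 = x ∧ (∀ s t, SR g c (u s) (u t)) ∧
      δ₁ ≤ dist x (u 1)) :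
    ∃ Q : ℕ, ∀ (n C : ℕ), 1 ≤ C → RR g Lk n C → ∀ x T, PT g Lk n T x → ∃ z, δ₁ ≤ dist x z ∧
      Chn Lk ((3 * C) ^ (Q + 1) * (T + 2)) (g.symm^[n] x) (g.symm^[n] z) := by
  obtain ⟨Q, hQ⟩ := diam_path hg hL hr
  refine ⟨Q, fun n C hC hR x T hT => ?_⟩
  obtain ⟨u, hu, u0, hpl, hd⟩ := hray x
  refine ⟨u 1, hd, ?_⟩
  have := hQ n C hC hR u hu hpl T (by rw [u0]; exact hT)
  rwa [u0] at this

/-- the stable step -/
theorem stepS (hL : LkS g Lk c' r) {δ₁ : ℝ} (hδ₁ : 0 < δ₁) (hc' : c' ≤ δ₁ / 4) {n C : ℕ}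
    (hR : RR g Lk n C) {x x' z : X} {T M : ℕ} (hT : PT g Lk n T x) (hx : SR g r x x')
    (hx' : SR g (δ₁ / 4) x x') (hz : δ₁ ≤ dist x z)
    (hM : Chn Lk M (g.symm^[n] x) (g.symm^[n] z)) : PT g Lk n (C * (T + M)) x' := by
  have h1 : Lk x x' := hL.ge _ _ hx
  refine hR.pt (z := z) (fun h => ?_) (((hT _ h1).flip hL.sy).trans hM)
  have h2 : dist x' z ≤ c' := hL.le _ _ h 0
  have h3 : dist x x' ≤ δ₁ / 4 := hx' 0
  have := dist_triangle x x' z
  linarith

theorem LkS.c_nonneg [Nonempty X] (hL : LkS g Lk c' r) (hr : 0 < r) : 0 ≤ c' := by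
  obtain ⟨x⟩ := ‹Nonempty X›
  have : dist x x ≤ c' := hL.le _ _ (hL.rfl' hr x) 0
  rwa [dist_self] at this

/-- the unstable step: transport of a chain -/
theorem stepU (hg : LP g c) {δ₁ : ℝ} (hδ₁ : 0 < δ₁) : ∃ c₀ > 0, c₀ ≤ c ∧ ∃ εu > 0,
    ∀ (Lk : X → X → Prop) (c' r : ℝ), 0 < r → c' ≤ c₀ → LkS g Lk c' r →
      ∀ a : ℕ, c * (1 / 2) ^ a ≤ r → ∀ (n M : ℕ) (x x' z : X), a ≤ n → SR g.symm εu x x' →
        δ₁ ≤ dist x z → Chn Lk M (g.symm^[n] x) (g.symm^[n] z) →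
        ∃ i ≤ M, ∃ w, ¬ Lk x' w ∧ Chn Lk i (g.symm^[n - a] x') (g.symm^[n - a] w) := by
  classical
  have hc := hg.c_pos
  obtain ⟨br, δb, hδb, hbr, hsmall, huniq, -⟩ := exists_br hg
  set ε₁ := min (c / 8) (δ₁ / 4) with hε₁
  have hε₁0 : 0 < ε₁ := by positivity
  have a1 : ε₁ ≤ c / 8 := min_le_left _ _
  have a2 : ε₁ ≤ δ₁ / 4 := min_le_right _ _
  obtain ⟨ηb, hηb, hs₁⟩ := hsmall ε₁ hε₁0
  set η₀ := min δb ηb with hη₀
  have hη₀0 : 0 < η₀ := lt_min hδb hηb
  have a3 : η₀ ≤ δb := min_le_left _ _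
  have a4 : η₀ ≤ ηb := min_le_right _ _
  set ε₂ := min ε₁ (η₀ / 4) with hε₂
  have hε₂0 : 0 < ε₂ := by positivity
  have a5 : ε₂ ≤ ε₁ := min_le_left _ _
  have a6 : ε₂ ≤ η₀ / 4 := min_le_right _ _
  obtain ⟨ηc, hηc, hs₂⟩ := hsmall ε₂ hε₂0
  set η₂ := min δb ηc with hη₂
  have hη₂0 : 0 < η₂ := lt_min hδb hηc
  have a7 : η₂ ≤ δb := min_le_left _ _
  have a8 : η₂ ≤ ηc := min_le_right _ _
  set c₀ := min (min ε₁ (η₀ / 8)) (η₂ / 4) with hc₀
  have hc₀0 : 0 < c₀ := by positivity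
  have b1 : c₀ ≤ ε₁ := (min_le_left _ _).trans (min_le_left _ _)
  have b2 : c₀ ≤ η₀ / 8 := (min_le_left _ _).trans (min_le_right _ _)
  have b3 : c₀ ≤ η₂ / 4 := min_le_right _ _
  set εu := min (min (η₀ / 8) (η₂ / 4)) (c / 3) with hεu
  have hεu0 : 0 < εu := by positivity
  have b4 : εu ≤ η₀ / 8 := (min_le_left _ _).trans (min_le_left _ _)
  have b5 : εu ≤ η₂ / 4 := (min_le_left _ _).trans (min_le_right _ _)
  have b6 : εu ≤ c / 3 := min_le_right _ _
  refine ⟨c₀, hc₀0, by linarith, εu, hεu0, ?_⟩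
  intro Lk c' r hr hcc hL a ha n M x x' z han hxx hz hM
  have : Nonempty X := ⟨x⟩
  have hc'0 : 0 ≤ c' := hL.c_nonneg hr
  obtain ⟨p, p0, pM, hp⟩ := hM
  set q : ℕ → X := fun i => g^[n] (p i) with hq
  have q0 : q 0 = x := by rw [hq]; show g^[n] (p 0) = x; rw [p0, iterR]
  have qM : q M = z := by rw [hq]; show g^[n] (p M) = z; rw [pM, iterR]
  have hqp : ∀ i, g.symm^[n] (q i) = p i := fun i => iterL g n (p i)
  have hdx : dist x x' ≤ εu := hxx 0
  -- facts at a good index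
  have fact : ∀ i, SR g (ε₂ + c') x (q i) → dist x' (q i) < η₀ := by
    intro i h
    have e1 : dist x (q i) ≤ ε₂ + c' := h 0
    have := dist_triangle_left x' (q i) x
    linarith
  have fact2 : ∀ i, SR g (ε₂ + c') x (q i) →
      SR g ε₁ x' (br x' (q i)) ∧ SR g.symm ε₁ (q i) (br x' (q i)) := fun i h =>
    hs₁ _ _ ((fact i h).trans_le a4)
  have K : ∀ i ≤ M, (∀ j < i, Lk x' (br x' (q j))) → SR g (ε₂ + c') x (q i) := by
    intro i
    induction i with
    | zero =>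
      intro _ _
      rw [q0]
      exact sr_refl g (by linarith) x
    | succ i ih =>
      intro hi hj
      have h1 := ih (by omega) fun j hj' => hj j (by omega)
      obtain ⟨h2, h3⟩ := fact2 i h1
      have h4 : dist x' (br x' (q i)) ≤ c' := hL.le _ _ (hj i (by omega)) 0
      have h5 : dist x (br x' (q i)) < η₂ := by
        have := dist_triangle x x' (br x' (q i))
        linarith
      have h6 := huniq x (br x' (q i)) (q i) (h5.trans_le a7) (h1.mono (by linarith))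
        (h3.symm'.mono (by linarith))
      have h7 := (hs₂ _ _ (h5.trans_le a8)).1
      rw [← h6] at h7
      exact sr_tr h7 (hL.le _ _ (hL.fwds n (hp i (by omega))))
  have hex : ∃ j, j < M ∧ ¬ Lk x' (br x' (q j)) := by
    by_contra hcon
    push Not at hcon
    have h1 : dist x (q M) ≤ ε₂ + c' := K M le_rfl hcon 0
    rw [qM] at h1
    linarith
  obtain ⟨hi₁, hi₂⟩ := Nat.find_spec hex
  set i₁ := Nat.find hex with hi₁d
  have hlt : ∀ j < i₁, Lk x' (br x' (q j)) := fun j hj => by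
    by_contra h
    exact Nat.find_min hex hj ⟨by omega, h⟩
  have hK : ∀ i ≤ i₁, SR g (ε₂ + c') x (q i) := fun i hi =>
    K i (by omega) fun j hj => hlt j (by omega)
  refine ⟨i₁, hi₁.le, br x' (q i₁), hi₂, fun i => g.symm^[n - a] (br x' (q i)), ?_, rfl, ?_⟩
  · show g.symm^[n - a] (br x' (q 0)) = g.symm^[n - a] x'
    rw [q0]
    have h1 : dist x' x < δb := by
      rw [dist_comm]
      linarith
    rw [← huniq x' x x' h1 (sr_refl g (by linarith) x') (hxx.mono b6)]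
  · intro i hi
    have h1 := fact2 i (hK i hi.le)
    have h2 := fact2 (i + 1) (hK (i + 1) hi)
    have h3 : SR g c (g.symm^[n] (br x' (q i))) (g.symm^[n] (br x' (q (i + 1)))) := by
      intro k
      rcases le_total k n with hk | hk
      · rw [fw g hk, fw g hk]
        have c1 := h1.2 (n - k)
        have c2 := h2.2 (n - k)
        have c3 := hL.le _ _ (hp i (by omega)) k
        rw [← hqp i, ← hqp (i + 1), fw g hk, fw g hk] at c3
        have c4 : dist (g.symm^[n - k] (q i)) (g.symm^[n - k] (q (i + 1))) ≤ c' := c3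
        have := dist_triangle (g.symm^[n - k] (br x' (q i))) (g.symm^[n - k] (q i))
          (g.symm^[n - k] (br x' (q (i + 1))))
        have := dist_triangle (g.symm^[n - k] (q i)) (g.symm^[n - k] (q (i + 1)))
          (g.symm^[n - k] (br x' (q (i + 1))))
        rw [dist_comm] at c1
        linarith
      · rw [fw' g hk, fw' g hk]
        have c1 := h1.1 (k - n)
        have c2 := h2.1 (k - n)
        have := dist_triangle_left (g^[k - n] (br x' (q i))) (g^[k - n] (br x' (q (i + 1))))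
          (g^[k - n] x')
        linarith
    have h4 := sr_back hg.symm ha h3
    rw [Homeomorph.symm_symm, fw g han, fw g han] at h4
    exact hL.ge _ _ h4

end Pool.Agent.N520.P
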