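import Pool.Agent.N520.P.B3

set_option autoImplicit false
set_option linter.unusedSectionVars false

open Filter Topology Set Metric unitInterval

namespace Pool.Agent.N520.P

open Pool.Agent.H789R2.AN Pool.Agent.H789R2.GP Pool.Agent.TH304.K289 Pool.Agent.TH289.L
open Pool.Agent.Y330.G Pool.Agent.Y330.H Pool.Agent.Y330.N

variable {X : Type*} [MetricSpace X] [CompactSpace X] {g : X ≃ₜ X} {c : ℝ}

/-- uniform chains of small steps in a compact connected space -/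
theorem unif_chain [ConnectedSpace X] {δ : ℝ} (hδ : 0 < δ) :
    ∃ K : ℕ, ∀ x y : X, Chn (fun a b : X => dist a b < δ) K x y := by
  classical
  have hrf : ∀ x : X, dist x x < δ := fun x => by rw [dist_self]; exact hδ
  have hsy : ∀ x y : X, dist x y < δ → dist y x < δ := fun x y h => by rwa [dist_comm]
  obtain ⟨x₀⟩ : Nonempty X := inferInstance
  set A : Set X := {y | ∃ N, Chn (fun a b : X => dist a b < δ) N x₀ y} with hA
  have hcl : IsClopen A := by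
    constructor
    · rw [← isOpen_compl_iff, Metric.isOpen_iff]
      intro y hy
      refine ⟨δ, hδ, fun z hz hzA => hy ?_⟩
      obtain ⟨N, hN⟩ := hzA
      exact ⟨N + 1, hN.snoc hz⟩
    · rw [Metric.isOpen_iff]
      rintro y ⟨N, hN⟩
      exact ⟨δ, hδ, fun z hz => ⟨N + 1, hN.snoc (hsy _ _ hz)⟩⟩
  have huniv : A = univ := hcl.eq_univ ⟨x₀, 0, Chn.refl _⟩
  obtain ⟨t, -, ht, hcov⟩ := (isCompact_univ (X := X)).finite_cover_balls hδ
  have hall : ∀ y : X, ∃ N, Chn (fun a b : X => dist a b < δ) N x₀ y := fun y => by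
    have : y ∈ A := by rw [huniv]; trivial
    exact this
  choose N hN using hall
  have hb : ∃ K, ∀ p ∈ t, N p ≤ K := by
    obtain ⟨K, hK⟩ := (ht.image N).bddAbove
    exact ⟨K, fun p hp => hK ⟨p, hp, rfl⟩⟩
  obtain ⟨K, hK⟩ := hb
  have h1 : ∀ y, Chn (fun a b : X => dist a b < δ) (K + 1) x₀ y := by
    intro y
    have hy := hcov (mem_univ y)
    simp only [mem_iUnion, mem_ball, exists_prop] at hy
    obtain ⟨p, hp, hyp⟩ := hy
    exact ((hN p).pad hrf (hK p hp)).snoc (hsy _ _ hyp)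
  exact ⟨K + 1 + (K + 1), fun x y => ((h1 x).flip hsy).trans (h1 y)⟩

theorem bnd1 {F T : ℕ} (hF : 1 ≤ F) : F * (F * (T + 2) + 2) ≤ 2 * F * F * (T + 2) := by
  have h1 : F * (T + 2) + 2 ≤ 2 * F * (T + 2) := by nlinarith
  calc F * (F * (T + 2) + 2) ≤ F * (2 * F * (T + 2)) := Nat.mul_le_mul_left _ h1
    _ = _ := by ring

/-- iteration of the steps -/
theorem pt_iter {Lk : X → X → Prop} {δ : ℝ} {n F : ℕ} (hF : 1 ≤ F) (hrf : ∀ x, Lk x x)
    (h : ∀ x x' T, dist x x' < δ → PT g Lk n T x → PT g Lk n (F * (T + 2)) x') :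
    ∀ (j : ℕ) (x x' : X), Chn (fun a b : X => dist a b < δ) j x x' → ∀ T, PT g Lk n T x →
      PT g Lk n ((2 * F) ^ j * (T + 2)) x' := by
  intro j
  induction j with
  | zero =>
    intro x x' hxx T hT
    rw [chn_zero] at hxx
    subst hxx
    exact hT.mono hrf (by rw [pow_zero]; omega)
  | succ j ih =>
    intro x x' hxx T hT
    obtain ⟨w, h1, h2⟩ := chn_succ.1 hxx
    refine (h w x' _ h2 (ih x w h1 T hT)).mono hrf ?_
    have h3 : 1 ≤ (2 * F) ^ j := Nat.one_le_pow _ _ (by omega)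
    have h4 : (2 * F) ^ j * (T + 2) + 2 ≤ 2 * ((2 * F) ^ j * (T + 2)) := by nlinarith
    calc F * ((2 * F) ^ j * (T + 2) + 2) ≤ F * (2 * ((2 * F) ^ j * (T + 2))) :=
          Nat.mul_le_mul_left _ h4
      _ = _ := by ring

/-- **Comparison of the growth at all points.** -/
theorem comparable [ConnectedSpace X] [Nontrivial X] (hg : LP g c) (hX : ULC X) :
    ∃ c₀ > 0, c₀ ≤ c ∧ ∀ (Lk : X → X → Prop) (c' r : ℝ), 0 < r → c' ≤ c₀ → LkS g Lk c' r →
      ∃ D Q : ℕ, 1 ≤ D ∧ ∀ n C : ℕ, 1 ≤ C → (∀ m ≤ n, RR g Lk m C) → ∀ (x x' : X) (T : ℕ),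
        PT g Lk n T x → PT g Lk n (D * C ^ Q * (T + 2)) x' := by
  have hc := hg.c_pos
  obtain ⟨δ₁, hδ₁, hray⟩ := exists_ray hg hX
  obtain ⟨c₁, hc₁, hc₁c, εu, hεu, hU⟩ := stepU hg hδ₁
  obtain ⟨c₂, hc₂, hc₂c, hexp⟩ := exp_all hg hX
  set c₀ := min (min c₁ c₂) (δ₁ / 4) with hc₀
  have hc₀0 : 0 < c₀ := by positivity
  have m1 : c₀ ≤ c₁ := (min_le_left _ _).trans (min_le_left _ _)
  have m2 : c₀ ≤ c₂ := (min_le_left _ _).trans (min_le_right _ _)
  have m3 : c₀ ≤ δ₁ / 4 := min_le_right _ _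
  refine ⟨c₀, hc₀0, m1.trans hc₁c, fun Lk c' r hr hcc hL => ?_⟩
  have hrf : ∀ x, Lk x x := fun x => hL.rfl' hr x
  -- expansion
  obtain ⟨a, ha⟩ := pw (c := c) hr
  obtain ⟨B₀, hB₀⟩ := hexp r hr
  set B := (B₀ + 1) ^ (a + 1) with hBd
  have hB1 : 1 ≤ B := Nat.one_le_pow _ _ (by omega)
  have hB : ∀ t ≤ a, ∀ x y, Lk x y → Chn Lk B (g.symm^[t] x) (g.symm^[t] y) := by
    intro t ht x y hxy
    rcases t with _ | t
    · exact (Chn.single hxy).pad hrf hB1
    · have h1 := hB₀ t x y ((hL.le _ _ hxy).mono (hcc.trans m2))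
      refine (h1.imp fun u v huv => hL.ge _ _ huv).pad hrf ?_
      calc B₀ ^ (t + 1) ≤ (B₀ + 1) ^ (t + 1) := Nat.pow_le_pow_left (by omega) _
        _ ≤ B := Nat.pow_le_pow_right (by omega) (by omega)
  obtain ⟨Q, hQ⟩ := reach hg hL hr hray
  -- the small steps
  set η := min r (δ₁ / 4) with hη
  have hη0 : 0 < η := by positivity
  obtain ⟨δ, hδ, hlp⟩ := hg.lp (min η εu) (lt_min hη0 hεu)
  obtain ⟨K, hK⟩ := unif_chain (X := X) hδ
  refine ⟨(4 * B ^ 2 * 3 ^ (2 * (Q + 2))) ^ K, (2 * (Q + 2)) * K,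
    Nat.one_le_pow _ _ (by positivity), fun n C hC hR x x' T hT => ?_⟩
  set F := B * (3 * C) ^ (Q + 2) with hF
  have h3C : 1 ≤ (3 * C) ^ (Q + 1) := Nat.one_le_pow _ _ (by omega)
  have hF1 : 1 ≤ F := Nat.mul_pos hB1 (Nat.one_le_pow _ _ (by omega))
  have hS : ∀ x x' T, SR g η x x' → PT g Lk n T x → PT g Lk n (F * (T + 2)) x' := by
    intro x x' T hxx hT
    obtain ⟨z, hz, hM⟩ := hQ n C hC (hR n le_rfl) x T hT
    refine (stepS hL hδ₁ (hcc.trans m3) (hR n le_rfl) hT (hxx.mono (min_le_left _ _))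
      (hxx.mono (min_le_right _ _)) hz hM).mono hrf ?_
    have h1 : T + (3 * C) ^ (Q + 1) * (T + 2) ≤ 3 * (3 * C) ^ (Q + 1) * (T + 2) := by nlinarith
    calc C * (T + (3 * C) ^ (Q + 1) * (T + 2)) ≤ C * (3 * (3 * C) ^ (Q + 1) * (T + 2)) :=
          Nat.mul_le_mul_left _ h1
      _ = 1 * ((3 * C) ^ (Q + 2)) * (T + 2) := by ring
      _ ≤ F * (T + 2) := Nat.mul_le_mul_right _ (Nat.mul_le_mul_right _ hB1)
  have hUn : ∀ x x' T, SR g.symm εu x x' → PT g Lk n T x → PT g Lk n (F * (T + 2)) x' := by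
    intro x x' T hxx hT
    have hFB : B ≤ F * (T + 2) := by
      calc B = B * 1 * 1 := by ring
        _ ≤ B * (3 * C) ^ (Q + 2) * (T + 2) :=
          Nat.mul_le_mul (Nat.mul_le_mul_left _ (Nat.one_le_pow _ _ (by omega))) (by omega)
    rcases Nat.lt_or_ge n a with hna | hna
    · exact PT.mono hrf (fun y hy => hB n hna.le x' y hy) hFB
    · obtain ⟨z, hz, hM⟩ := hQ n C hC (hR n le_rfl) x T hT
      obtain ⟨i, hi, w, hw1, hw2⟩ := hU Lk c' r hr (hcc.trans m1) hL a ha n _ x x' z hna hxx hz hM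
      have h1 : PT g Lk (n - a) (C * i) x' := (hR (n - a) (Nat.sub_le _ _)).pt hw1 hw2
      intro y hy
      have h2 := (h1 y hy).flat (φ := g.symm^[a]) (hB a le_rfl)
      rw [← Function.iterate_add_apply, ← Function.iterate_add_apply, Nat.add_sub_cancel' hna]
        at h2
      refine h2.pad hrf ?_
      calc C * i * B ≤ C * ((3 * C) ^ (Q + 1) * (T + 2)) * B :=
            Nat.mul_le_mul_right _ (Nat.mul_le_mul_left _ hi)
        _ ≤ 3 * (C * ((3 * C) ^ (Q + 1) * (T + 2)) * B) := Nat.le_mul_of_pos_left _ (by omega)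
        _ = F * (T + 2) := by rw [hF]; ring
  have hstep : ∀ x x' T, dist x x' < δ → PT g Lk n T x →
      PT g Lk n (2 * F * F * (T + 2)) x' := by
    intro x x' T hd hT
    obtain ⟨w, h1, h2⟩ := hlp x x' hd
    exact (hUn w x' _ (h2.mono (min_le_right _ _)).symm'
      (hS x w T (h1.mono (min_le_left _ _)) hT)).mono hrf (bnd1 hF1)
  have h2F : 1 ≤ 2 * F * F := by nlinarith
  refine (pt_iter h2F hrf hstep K x x' (hK x x') T hT).mono hrf (le_of_eq ?_)
  have e1 : 2 * (2 * F * F) = 4 * B ^ 2 * 3 ^ (2 * (Q + 2)) * C ^ (2 * (Q + 2)) := by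
    rw [hF, mul_pow]
    ring
  rw [e1, mul_pow (4 * B ^ 2 * 3 ^ (2 * (Q + 2))), pow_mul C (2 * (Q + 2)) K]

end Pool.Agent.N520.P
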