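import Pool.Agent.N520.P.A7
import Pool.Agent.N520.P.B4

set_option autoImplicit false
set_option linter.unusedSectionVars false

open Filter Topology Set Metric unitInterval

namespace Pool.Agent.N520.P

open Pool.Agent.H721R2 Pool.Agent.H789R2.AN Pool.Agent.H789R2.GP Pool.Agent.TH304.K289
open Pool.Agent.TH289.L
open Pool.Agent.Y330.G Pool.Agent.Y330.H Pool.Agent.Y330.N

section general

variable {M : Type*} [TopologicalSpace M] {f : M ≃ₜ M} {𝒰 : Set (M × M)}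

theorem tR (f : M ≃ₜ M) (t : ℕ) (z : M) : f^[t] (f.symm^[t] z) = z :=
  (Function.LeftInverse.iterate f.apply_symm_apply t) z

theorem tL (f : M ≃ₜ M) (t : ℕ) (z : M) : f.symm^[t] (f^[t] z) = z :=
  (Function.LeftInverse.iterate f.symm_apply_apply t) z

theorem Link.sh {x y : M} (h : Link f 𝒰 x y) (m : ℕ) : Link f 𝒰 (f^[m] x) (f^[m] y) := by
  intro k
  rw [← Function.iterate_add_apply, ← Function.iterate_add_apply]
  exact h (k + m)

theorem ExpandsGE.time {t s N : ℕ} (h : ExpandsGE f 𝒰 t N) : ExpandsGE f 𝒰 (t + s) N := by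
  intro x y hxy
  apply h
  have h1 : Chn (Link f 𝒰) N (f^[s] (f.symm^[t + s] x)) (f^[s] (f.symm^[t + s] y)) :=
    Chn.map (φ := f^[s]) hxy fun u v huv => huv.sh s
  have e : ∀ z : M, f^[s] (f.symm^[t + s] z) = f.symm^[t] z := fun z => by
    rw [Nat.add_comm, Function.iterate_add_apply, tR]
  rwa [e, e] at h1

theorem ExpandsLE.comp {t s N N' : ℕ} (h : ExpandsLE f 𝒰 t N) (h' : ExpandsLE f 𝒰 s N') :
    ExpandsLE f 𝒰 (t + s) (N * N') := by
  intro x y hxy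
  have h1 : Chn (Link f 𝒰) (N * N') (f.symm^[s] (f.symm^[t] x)) (f.symm^[s] (f.symm^[t] y)) :=
    Chn.flat (φ := f.symm^[s]) (h x y hxy) fun u v huv => h' u v huv
  rw [← Function.iterate_add_apply, ← Function.iterate_add_apply, Nat.add_comm s t] at h1
  exact h1

theorem ExpandsLE.pad {t N N' : ℕ} (hr : ∀ x, Link f 𝒰 x x) (h : ExpandsLE f 𝒰 t N)
    (hN : N ≤ N') : ExpandsLE f 𝒰 t N' := fun x y hxy => Chn.pad hr (h x y hxy) hN

/-- the converse -/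
theorem round_of_uniform {L : ℝ} (hL : 1 < L) (hr : ∀ x, Link f 𝒰 x x)
    (h : UniformGrowth f 𝒰 L) : RoundLeaves f 𝒰 L := by
  obtain ⟨C, hC⟩ := h
  refine ⟨max C 0, fun n N N' x y z hxy hxz hz hN => ?_⟩
  obtain ⟨N₀, h1, h2⟩ := hC n
  have h3 : N₀ ≤ N := by
    by_contra hcon
    exact hxz (h1 x z (Chn.pad hr hz (by omega)))
  refine h2 N' ?_ x y hxy
  have h4 : (N₀ : ℝ) ≤ N := by exact_mod_cast h3
  have h5 : 0 < L ^ n := by positivity
  calc C * L ^ n * N₀ ≤ max C 0 * L ^ n * N₀ := by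
        gcongr
        exact le_max_left _ _
    _ ≤ max C 0 * L ^ n * N := by
        gcongr
    _ ≤ N' := hN

theorem RoundLeaves.mono {L L' : ℝ} (hL : 0 ≤ L) (hLL : L ≤ L') (h : RoundLeaves f 𝒰 L) :
    RoundLeaves f 𝒰 L' := by
  obtain ⟨C, hC⟩ := h
  refine ⟨max C 0, fun n N N' x y z hxy hxz hz hN => hC n N N' x y z hxy hxz hz ?_⟩
  have h1 : L ^ n ≤ L' ^ n := pow_le_pow_left₀ hL hLL n
  have h2 : 0 ≤ L ^ n := pow_nonneg hL n
  have h3 : C * L ^ n ≤ max C 0 * L' ^ n :=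
    mul_le_mul (le_max_left _ _) h1 h2 (le_max_right _ _)
  exact (mul_le_mul_of_nonneg_right h3 (Nat.cast_nonneg N)).trans hN

end general

/-- the real inequality -/
theorem real_bound {C' L L' : ℝ} {q n s B D Q Cn N : ℕ} (hL' : 1 < L')
    (hLE : L' ^ (Q + 1) = L) (hCn : Cn = ⌈|C'| * L' ^ (q * n)⌉₊ + 1) (hN : 1 ≤ N) (hs : s < q) :
    ((D * Cn ^ Q * (Cn * (N + 1) + 2) * B ^ (s + 1) : ℕ) : ℝ) ≤
      (4 * D * (|C'| + 2) ^ (Q + 1) * (B + 1) ^ q + 1) * L ^ (q * n + s) * N := by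
  have hL : 1 ≤ L := by
    rw [← hLE]
    exact one_le_pow₀ hL'.le
  have h1 : 1 ≤ L' ^ (q * n) := one_le_pow₀ hL'.le
  have h2 : (Cn : ℝ) ≤ (|C'| + 2) * L' ^ (q * n) := by
    have h3 := (Nat.ceil_lt_add_one (show 0 ≤ |C'| * L' ^ (q * n) by positivity)).le
    rw [hCn]
    push_cast
    nlinarith
  have h0 : 1 ≤ Cn := by omega
  have h4 : D * Cn ^ Q * (Cn * (N + 1) + 2) * B ^ (s + 1) ≤
      4 * D * Cn ^ (Q + 1) * (B + 1) ^ q * N := by
    have e1 : Cn * (N + 1) + 2 ≤ 4 * Cn * N := by nlinarith [Nat.mul_le_mul h0 hN]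
    have e2 : B ^ (s + 1) ≤ (B + 1) ^ q := by
      calc B ^ (s + 1) ≤ (B + 1) ^ (s + 1) := Nat.pow_le_pow_left (by omega) _
        _ ≤ (B + 1) ^ q := Nat.pow_le_pow_right (by omega) (by omega)
    calc D * Cn ^ Q * (Cn * (N + 1) + 2) * B ^ (s + 1)
        ≤ D * Cn ^ Q * (4 * Cn * N) * (B + 1) ^ q :=
          Nat.mul_le_mul (Nat.mul_le_mul_left _ e1) e2
      _ = _ := by ring
  have h5 : (Cn : ℝ) ^ (Q + 1) ≤ (|C'| + 2) ^ (Q + 1) * L ^ (q * n + s) := by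
    calc (Cn : ℝ) ^ (Q + 1) ≤ ((|C'| + 2) * L' ^ (q * n)) ^ (Q + 1) :=
          pow_le_pow_left₀ (Nat.cast_nonneg _) h2 _
      _ = (|C'| + 2) ^ (Q + 1) * L ^ (q * n) := by
          rw [mul_pow, ← hLE, ← pow_mul, ← pow_mul, Nat.mul_comm (q * n)]
      _ ≤ _ := mul_le_mul_of_nonneg_left (pow_le_pow_right₀ hL (by omega)) (by positivity)
  calc ((D * Cn ^ Q * (Cn * (N + 1) + 2) * B ^ (s + 1) : ℕ) : ℝ)
      ≤ ((4 * D * Cn ^ (Q + 1) * (B + 1) ^ q * N : ℕ) : ℝ) := by exact_mod_cast h4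
    _ = 4 * D * (Cn : ℝ) ^ (Q + 1) * (B + 1) ^ q * N := by push_cast; ring
    _ ≤ 4 * D * ((|C'| + 2) ^ (Q + 1) * L ^ (q * n + s)) * (B + 1) ^ q * N := by gcongr
    _ ≤ 4 * D * ((|C'| + 2) ^ (Q + 1) * L ^ (q * n + s)) * (B + 1) ^ q * N +
        L ^ (q * n + s) * N := le_add_of_nonneg_right (by positivity)
    _ = _ := by ring

variable {X : Type*} [MetricSpace X] [CompactSpace X] {f : X ≃ₜ X} {q : ℕ} {c : ℝ}

/-- **Roundness gives uniform growth.** -/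
theorem uniform_of_round [ConnectedSpace X] (hq : 1 ≤ q) (hg : LP (iterHomeo f q) c)
    (hX : ULC X) : ∃ c' > 0, c' ≤ c ∧ ∀ 𝒰 ∈ 𝓝ˢ (diagonal X), (∀ p ∈ 𝒰, dist p.1 p.2 ≤ c') →
      ∃ Q : ℕ, ∀ L' : ℝ, 1 < L' → RoundLeaves f 𝒰 L' → UniformGrowth f 𝒰 (L' ^ (Q + 1)) := by
  classical
  rcases subsingleton_or_nontrivial X with hs | hs
  · refine ⟨c, hg.c_pos, le_rfl, fun 𝒰 h𝒰 _ => ⟨0, fun L' _ _ => ⟨1, fun n => ⟨0, fun x y _ => ?_,
      fun N' _ x y _ => ?_⟩⟩⟩⟩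
    · rw [Subsingleton.elim x y]
      exact link_refl h𝒰 y
    · rw [Subsingleton.elim x y]
      exact (Chn.refl (r := Link f 𝒰) (f.symm^[n] y)).pad (link_refl h𝒰) (Nat.zero_le _)
  obtain ⟨c₀, hc₀, hc₀c, hcmp⟩ := comparable hg hX
  obtain ⟨c₂, hc₂, hc₂c, hauto⟩ := autoLE hq hg hX
  refine ⟨min c₀ c₂, lt_min hc₀ hc₂, (min_le_left _ _).trans hc₀c, fun 𝒰 h𝒰 hc => ?_⟩
  have k1 : ∀ p ∈ 𝒰, dist p.1 p.2 ≤ c₀ := fun p hp => (hc p hp).trans (min_le_left _ _)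
  have k2 : ∀ p ∈ 𝒰, dist p.1 p.2 ≤ c₂ := fun p hp => (hc p hp).trans (min_le_right _ _)
  obtain ⟨B, hB⟩ := hauto 𝒰 h𝒰 k2
  obtain ⟨r, hr, hr1⟩ := link_of_sr f hq h𝒰
  have hrf : ∀ x, Link f 𝒰 x x := link_refl h𝒰
  have hL0 : LkS (iterHomeo f q) (Link f 𝒰) c₀ r :=
    ⟨fun x y h => h.comm, fun x y h => by
      have := h.shift q
      have e : ∀ z, f^[q] z = iterHomeo f q z := fun z => by
        have := it_iter f q 1 z
        rw [Function.iterate_one, Nat.mul_one] at this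
        exact this.symm
      rwa [e, e] at this, fun x y h => sr_of_link k1 h, hr1⟩
  obtain ⟨D, Q, hD, hDQ⟩ := hcmp (Link f 𝒰) c₀ r hr le_rfl hL0
  -- the constants
  refine ⟨Q, fun L' hL' hround => ?_⟩
  obtain ⟨L, hLE⟩ : ∃ L, L' ^ (Q + 1) = L := ⟨_, rfl⟩
  have hL : 1 < L := by
    rw [← hLE]
    exact one_lt_pow₀ hL' (by omega)
  rw [hLE]
  obtain ⟨C', hC'⟩ := hround
  refine ⟨4 * D * (|C'| + 2) ^ (Q + 1) * (B + 1) ^ q + 1, fun t => ?_⟩
  obtain ⟨n, s, hs', ht⟩ : ∃ n s, s < q ∧ t = q * n + s :=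
    ⟨t / q, t % q, Nat.mod_lt _ (by omega), (Nat.div_add_mod t q).symm⟩
  subst ht
  by_cases hall : ∀ N, ExpandsGE f 𝒰 (q * n) N
  · refine ⟨B ^ (q * n + s + 1), (hall _).time, fun N' hN' => (hB _).pad hrf ?_⟩
    have h1 : (1 : ℝ) ≤ L ^ (q * n + s) := one_le_pow₀ hL.le
    have h2 : (1 : ℝ) ≤ 4 * D * (|C'| + 2) ^ (Q + 1) * (B + 1) ^ q + 1 := by
      have : (0 : ℝ) ≤ 4 * D * (|C'| + 2) ^ (Q + 1) * (B + 1) ^ q := by positivity
      linarith
    have h3 : ((B ^ (q * n + s + 1) : ℕ) : ℝ) ≤ N' := by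
      refine le_trans ?_ hN'
      exact le_mul_of_one_le_left (Nat.cast_nonneg _) (by nlinarith)
    exact_mod_cast h3
  · push Not at hall
    obtain ⟨hf1, hf2⟩ : ¬ ExpandsGE f 𝒰 (q * n) (Nat.find hall) ∧
      ∀ N < Nat.find hall, ExpandsGE f 𝒰 (q * n) N :=
      ⟨Nat.find_spec hall, fun N hN => not_not.1 (Nat.find_min hall hN)⟩
    set N₁ := Nat.find hall with hN₁
    have g0 : N₁ ≠ 0 := fun h => by
      rw [h] at hf1
      refine hf1 fun x y hxy => ?_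
      have h1 : Chn (Link f 𝒰) 0 (f.symm^[q * n] x) (f.symm^[q * n] y) := hxy
      rw [chn_zero] at h1
      have h2 := congrArg (fun z => f^[q * n] z) h1
      simp only [iterR] at h2
      rw [h2]
      exact hrf y
    have g1 : N₁ ≠ 1 := fun h => by
      rw [h] at hf1
      refine hf1 fun x y hxy => ?_
      obtain ⟨p, p0, p1, p2⟩ := hxy
      have h1 := (p2 0 (by omega)).shift (q * n)
      rw [p0, p1, iterR, iterR] at h1
      exact h1
    obtain ⟨N, hN⟩ : ∃ N, N₁ = N + 1 := ⟨N₁ - 1, by omega⟩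
    have hN1 : 1 ≤ N := by omega
    rw [hN] at hf1
    simp only [ExpandsGE] at hf1
    push Not at hf1
    obtain ⟨x₀, z₀, hz1, hz2⟩ := hf1
    refine ⟨N, (hf2 N (by omega)).time, fun N' hN' => ?_⟩
    set Cn := ⌈|C'| * L' ^ (q * n)⌉₊ + 1 with hCn
    have hCn1 : 1 ≤ Cn := by omega
    have hRR : ∀ m ≤ n, RR (iterHomeo f q) (Link f 𝒰) m Cn := by
      intro m hm x y z M hxy hxz hM
      rw [it_symm_iter, it_symm_iter] at hM ⊢
      refine hC' (q * m) M (Cn * M) x y z hxy hxz hM ?_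
      have e1 : C' * L' ^ (q * m) ≤ Cn := by
        calc C' * L' ^ (q * m) ≤ |C'| * L' ^ (q * n) := by
              have h5 : L' ^ (q * m) ≤ L' ^ (q * n) :=
                pow_le_pow_right₀ hL'.le (Nat.mul_le_mul_left _ hm)
              exact mul_le_mul (le_abs_self _) h5 (by positivity) (abs_nonneg _)
          _ ≤ ⌈|C'| * L' ^ (q * n)⌉₊ := Nat.le_ceil _
          _ ≤ Cn := by rw [hCn]; push_cast; linarith
      push_cast
      exact mul_le_mul_of_nonneg_right e1 (Nat.cast_nonneg _)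
    have hPT : PT (iterHomeo f q) (Link f 𝒰) n (Cn * (N + 1)) x₀ :=
      (hRR n le_rfl).pt hz2 (by
        rw [it_symm_iter, it_symm_iter]
        exact hz1)
    have hLE1 : ExpandsLE f 𝒰 (q * n) (D * Cn ^ Q * (Cn * (N + 1) + 2)) := by
      intro x y hxy
      have := hDQ n Cn hCn1 hRR x₀ x _ hPT y hxy
      rw [it_symm_iter, it_symm_iter] at this
      exact this
    refine (hLE1.comp (hB s)).pad hrf ?_
    have h1 := real_bound (C' := C') (B := B) (D := D) hL' hLE hCn hN1 hs'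
    exact_mod_cast h1.trans hN'

end Pool.Agent.N520.P
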