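import Pool.Agent.N520.P.A9
import Pool.Agent.N520.P.B5

set_option autoImplicit false
set_option linter.unusedSectionVars false

open Filter Topology Set Metric
open scoped Manifold ContDiff Pointwise

namespace Pool.Agent.N520.P

open Pool.Agent.H721R2 Pool.Agent.H789R2.AN Pool.Agent.H789R2.GP Pool.Agent.TH304.K289
open Pool.Agent.TH289.L Pool.Agent.TH289 Pool.Agent.TH289.K
open Pool.Agent.Y330.G Pool.Agent.Y330.H Pool.Agent.Y330.J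

/-- a root -/
theorem exists_root {L : ℝ} (hL : 1 < L) (Q : ℕ) : ∃ L' > 1, L' ^ (Q + 1) = L := by
  refine ⟨L ^ ((1 : ℝ) / ((Q + 1 : ℕ) : ℝ)), Real.one_lt_rpow hL (by positivity), ?_⟩
  rw [← Real.rpow_natCast, ← Real.rpow_mul (by linarith),
    one_div_mul_cancel (by positivity), Real.rpow_one]

/-- almost round leaves give the growth gap -/
theorem abs_round {X : Type*} [MetricSpace X] [CompactSpace X] [ConnectedSpace X] {f : X ≃ₜ X}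
    {q : ℕ} {c : ℝ} (hq : 1 ≤ q) (hg : LP (iterHomeo f q) c) (hX : ULC X) : ∃ c' > 0, c' ≤ c ∧
    ∀ 𝒰 ∈ 𝓝ˢ (diagonal X), (∀ p ∈ 𝒰, dist p.1 p.2 ≤ c') → ∃ L > 1,
      (RoundLeaves f 𝒰 L ∨ RoundLeaves f.symm 𝒰 L) → LogGrowthGap f 𝒰 := by
  have hsy : (iterHomeo f q).symm = iterHomeo f.symm q := it_symm f q
  have hg' : LP (iterHomeo f.symm q) c := by rw [← hsy]; exact hg.symm
  obtain ⟨c₁, hc₁, hcc₁, h1⟩ := autoLE hq hg hX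
  obtain ⟨c₂, hc₂, hcc₂, h2⟩ := autoLE hq hg' hX
  obtain ⟨c₃, hc₃, hcc₃, h3⟩ := uniform_of_round hq hg hX
  obtain ⟨c₄, hc₄, hcc₄, h4⟩ := uniform_of_round hq hg' hX
  refine ⟨min (min c₁ c₂) (min c₃ c₄), by positivity,
    ((min_le_left _ _).trans (min_le_left _ _)).trans hcc₁, fun 𝒰 h𝒰 hc => ?_⟩
  have k1 : ∀ p ∈ 𝒰, dist p.1 p.2 ≤ c₁ := fun p hp =>
    (hc p hp).trans ((min_le_left _ _).trans (min_le_left _ _))
  have k2 : ∀ p ∈ 𝒰, dist p.1 p.2 ≤ c₂ := fun p hp =>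
    (hc p hp).trans ((min_le_left _ _).trans (min_le_right _ _))
  have k3 : ∀ p ∈ 𝒰, dist p.1 p.2 ≤ c₃ := fun p hp =>
    (hc p hp).trans ((min_le_right _ _).trans (min_le_left _ _))
  have k4 : ∀ p ∈ 𝒰, dist p.1 p.2 ≤ c₄ := fun p hp =>
    (hc p hp).trans ((min_le_right _ _).trans (min_le_right _ _))
  obtain ⟨B₁, hB₁⟩ := h1 𝒰 h𝒰 k1
  obtain ⟨B₂, hB₂⟩ := h2 𝒰 h𝒰 k2
  obtain ⟨Q₁, hQ₁⟩ := h3 𝒰 h𝒰 k3
  obtain ⟨Q₂, hQ₂⟩ := h4 𝒰 h𝒰 k4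
  obtain ⟨a₁, ha₁⟩ := autoGE hq hg h𝒰 (fun p hp => (k1 p hp).trans hcc₁)
  obtain ⟨a₂, ha₂⟩ := autoGE hq hg' h𝒰 (fun p hp => (k2 p hp).trans hcc₂)
  have k5 : ∀ s t M : ℕ, q * (s + (a₁ + a₂)) ≤ t → M ≤ 2 ^ s → ExpandsGE f 𝒰 t M :=
    fun s t M ht hM => ha₁ s t M (le_trans (Nat.mul_le_mul_left _ (by omega)) ht) hM
  have k6 : ∀ s t M : ℕ, q * (s + (a₁ + a₂)) ≤ t → M ≤ 2 ^ s → ExpandsGE f.symm 𝒰 t M :=
    fun s t M ht hM => ha₂ s t M (le_trans (Nat.mul_le_mul_left _ (by omega)) ht) hM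
  obtain ⟨L₁, hL₁, g1⟩ := log_of_uniform k5 k6 hB₂
  obtain ⟨L₂, hL₂, g2⟩ := log_of_uniform (f := f.symm) k6 k5 hB₁
  obtain ⟨L₃, hL₃, e3⟩ := exists_root hL₁ Q₁
  obtain ⟨L₄, hL₄, e4⟩ := exists_root hL₂ Q₂
  have m1 : 1 < min L₃ L₄ := lt_min hL₃ hL₄
  refine ⟨min L₃ L₄, m1, ?_⟩
  rintro (h | h)
  · have h5 := hQ₁ L₃ hL₃ (h.mono (by linarith) (min_le_left _ _))
    rw [e3] at h5
    exact g1 h5
  · have h5 := hQ₂ L₄ hL₄ (h.mono (by linarith) (min_le_right _ _))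
    rw [e4] at h5
    exact (g2 h5).symm

section manifold

variable {E : Type*} [NormedAddCommGroup E] [NormedSpace ℝ E] [FiniteDimensional ℝ E]
  {M : Type*} [TopologicalSpace M] [T2Space M] [CompactSpace M] [ConnectedSpace M]
  [ChartedSpace E M] [IsManifold 𝓘(ℝ, E) ∞ M]

/-- **The main theorem**: round leaves, pinched growth, growth gaps. -/
theorem man_round (f : Diffeomorph 𝓘(ℝ, E) 𝓘(ℝ, E) M M 1)
    (Es Eu : ∀ x : M, Submodule ℝ (TangentSpace 𝓘(ℝ, E) x)) (hA : IsAnosov f Es Eu) :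
    ∃ 𝒰₀ ∈ 𝓝ˢ (diagonal M), ∀ 𝒰 ∈ 𝓝ˢ (diagonal M), 𝒰 ⊆ 𝒰₀ →
      (∃ L > 1, RoundLeaves f.toHomeomorph 𝒰 L ∨ RoundLeaves f.toHomeomorph.symm 𝒰 L ∨
        PinchedGrowth f.toHomeomorph 𝒰 → LogGrowthGap f.toHomeomorph 𝒰) ∧
      (GrowthGap f.toHomeomorph 𝒰 → TopTransitive f ∧ GPS f.toHomeomorph ∧
        ∃ π : E → M, IsCoveringMap π ∧ Function.Surjective π) ∧
      (LogGrowthGap f.toHomeomorph 𝒰 → TopTransitive f ∧ GPS f.toHomeomorph ∧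
        (∃ π : E → M, IsCoveringMap π ∧ Function.Surjective π) ∧
        ∃ d : ℕ, ∀ (x : M) (S : Set (FundamentalGroup M x)),
          S.Finite → ∃ C : ℕ, ∀ n : ℕ, (S ^ n).ncard ≤ C * (n + 1) ^ d) := by
  obtain ⟨m, ee, hee, hemb, hinje⟩ :=
    exists_embedding_euclidean_of_compact (I := 𝓘(ℝ, E)) (M := M)
  let _ : MetricSpace M := hemb.isEmbedding.comapMetricSpace ee
  have hiso : ∀ x y : M, dist x y = ‖ee x - ee y‖ := fun x y => dist_eq_norm (ee x) (ee y)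
  have he1 : ContMDiff 𝓘(ℝ, E) (𝓡 m) 1 ee := hee.of_le (by simp)
  obtain ⟨q, ⟨S, hg, -, -, -⟩, hq⟩ :=
    ((exists_sys_ev hiso he1 hinje f Es Eu hA).and (eventually_ge_atTop 1)).exists
  have : ProperSpace E := FiniteDimensional.proper_real E
  obtain ⟨c, hLP⟩ := exists_LP S
  rw [hg] at hLP
  have hX : ULC M := ulc_of_charted (X := M) (E := E)
  obtain ⟨c', hc', hcc, hU⟩ := abs_round hq hLP hX
  refine ⟨{p | dist p.1 p.2 < c'}, (diag_iff _).2 ⟨c', hc', fun x y h => h⟩,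
    fun 𝒰 h𝒰 hsub => ?_⟩
  have hcU' : ∀ p ∈ 𝒰, dist p.1 p.2 ≤ c' := fun p hp => (hsub hp : dist p.1 p.2 < c').le
  have hcU : ∀ p ∈ 𝒰, dist p.1 p.2 ≤ c := fun p hp => (hcU' p hp).trans hcc
  obtain ⟨L, hL, hround⟩ := hU 𝒰 h𝒰 hcU'
  have hgap : GrowthGap f.toHomeomorph 𝒰 → TopTransitive f ∧ GPS f.toHomeomorph ∧
      ∃ π : E → M, IsCoveringMap π ∧ Function.Surjective π := fun h => by
    have hG := abs_gps hq hLP hX h𝒰 hcU h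
    obtain ⟨k1, k2⟩ := man_self f Es Eu hA hG
    exact ⟨k1, hG, k2⟩
  refine ⟨⟨L, hL, ?_⟩, hgap, fun h => ?_⟩
  · rintro (h | h | h)
    · exact hround (Or.inl h)
    · exact hround (Or.inr h)
    · exact log_of_pinched h
  · obtain ⟨c1, c2, c3⟩ := hgap h.gap
    exact ⟨c1, c2, c3, abs_pg hq hLP hX h𝒰 hcU h⟩

end manifold

end Pool.Agent.N520.P
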